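import Pool.Agent.helper80.RSV.Defs

/-!
# Residually small varieties of groups: basic lemmas
-/

namespace Pool.Agent.helper80.RSV

open Function

section Law

variable {G H : Type*} [Group G] [Group H]

theorem map_lift {α : Type*} (φ : G →* H) (f : α → G) (w : FreeGroup α) :
    φ (FreeGroup.lift f w) = FreeGroup.lift (fun a => φ (f a)) w := by
  have : φ.comp (FreeGroup.lift f) = FreeGroup.lift (fun a => φ (f a)) := by
    ext a; simp
  exact DFunLike.congr_fun this w

theorem Law.of_injective {w : FreeGroup ℕ} (h : Law w H) (φ : G →* H) (hφ : Injective φ) :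
    Law w G := by
  intro f
  apply hφ
  rw [map_lift, map_one]
  exact h _

theorem Law.of_surjective {w : FreeGroup ℕ} (h : Law w G) (φ : G →* H) (hφ : Surjective φ) :
    Law w H := by
  intro f
  choose g hg using fun n => hφ (f n)
  have := h g
  have h2 := congrArg φ this
  rw [map_lift, map_one] at h2
  simpa only [hg] using h2

theorem Law.pi {ι : Type*} {G : ι → Type*} [∀ i, Group (G i)] {w : FreeGroup ℕ}
    (h : ∀ i, Law w (G i)) : Law w (∀ i, G i) := by
  intro f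
  funext i
  have := map_lift (Pi.evalMonoidHom G i) f w
  simp only [Pi.evalMonoidHom_apply] at this
  rw [this]
  exact h i _

theorem Law.prod {w : FreeGroup ℕ} (h : Law w G) (h' : Law w H) : Law w (G × H) := by
  intro f
  refine Prod.ext ?_ ?_
  · have := map_lift (MonoidHom.fst G H) f w
    simp only [MonoidHom.coe_fst] at this
    rw [this]
    exact h _
  · have := map_lift (MonoidHom.snd G H) f w
    simp only [MonoidHom.coe_snd] at this
    rw [this]
    exact h' _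

theorem Law.fst {w : FreeGroup ℕ} (h : Law w (G × H)) : Law w G :=
  h.of_surjective (MonoidHom.fst G H) Prod.fst_surjective

theorem Law.snd {w : FreeGroup ℕ} (h : Law w (G × H)) : Law w H :=
  h.of_surjective (MonoidHom.snd G H) Prod.snd_surjective

theorem Law.subgroup {w : FreeGroup ℕ} (h : Law w G) (K : Subgroup G) : Law w K :=
  h.of_injective K.subtype K.subtype_injective

theorem Law.quotient {w : FreeGroup ℕ} (h : Law w G) (K : Subgroup G) [K.Normal] :
    Law w (G ⧸ K) :=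
  h.of_surjective (QuotientGroup.mk' K) (QuotientGroup.mk'_surjective K)

/-- a law holds for words in any alphabet -/
theorem Law.word {w : FreeGroup ℕ} (h : Law w G) {α : Type*} (f : ℕ → FreeGroup α) (g : α → G) :
    FreeGroup.lift g (FreeGroup.lift f w) = 1 := by
  rw [map_lift]
  exact h _

/-- a word involves only finitely many letters -/
theorem exists_bound (w : FreeGroup ℕ) : ∃ k : ℕ, ∀ (G : Type) [Group G] (f f' : ℕ → G),
    (∀ n < k, f n = f' n) → FreeGroup.lift f w = FreeGroup.lift f' w := by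
  induction w using FreeGroup.induction_on with
  | C1 => exact ⟨0, fun G _ f f' _ => by simp⟩
  | of n => exact ⟨n + 1, fun G _ f f' h => by simpa using h n (by omega)⟩
  | inv_of n _ => exact ⟨n + 1, fun G _ f f' h => by simpa using h n (by omega)⟩
  | mul x y hx hy =>
    obtain ⟨k, hk⟩ := hx
    obtain ⟨l, hl⟩ := hy
    refine ⟨max k l, fun G _ f f' h => ?_⟩
    rw [map_mul, map_mul, hk G f f' (fun n hn => h n (lt_of_lt_of_le hn (le_max_left _ _))),
      hl G f f' (fun n hn => h n (lt_of_lt_of_le hn (le_max_right _ _)))]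

end Law

section Sat

variable {W : Set (FreeGroup ℕ)} {G H : Type*} [Group G] [Group H]

theorem Sat.of_injective (h : Sat W H) (φ : G →* H) (hφ : Injective φ) : Sat W G :=
  fun w hw => (h w hw).of_injective φ hφ

theorem Sat.of_surjective (h : Sat W G) (φ : G →* H) (hφ : Surjective φ) : Sat W H :=
  fun w hw => (h w hw).of_surjective φ hφ

theorem Sat.pi {ι : Type*} {G : ι → Type*} [∀ i, Group (G i)] (h : ∀ i, Sat W (G i)) :
    Sat W (∀ i, G i) := fun w hw => Law.pi fun i => h i w hw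

theorem Sat.prod (h : Sat W G) (h' : Sat W H) : Sat W (G × H) :=
  fun w hw => (h w hw).prod (h' w hw)

theorem Sat.subgroup (h : Sat W G) (K : Subgroup G) : Sat W K :=
  fun w hw => (h w hw).subgroup K

theorem Sat.quotient (h : Sat W G) (K : Subgroup G) [K.Normal] : Sat W (G ⧸ K) :=
  fun w hw => (h w hw).quotient K

theorem Sat.mono {W' : Set (FreeGroup ℕ)} (h : Sat W G) (hW : W' ⊆ W) : Sat W' G :=
  fun w hw => h w (hW hw)

/-- the embedding of `G ⧸ ⨅ N_i` in the product of the `G ⧸ N_i` -/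
theorem Sat.quotient_iInf {ι : Type*} {N : ι → Subgroup G} (hN : ∀ i, (N i).Normal)
    {K : Subgroup G} [K.Normal] (hK : ∀ x, (∀ i, x ∈ N i) → x ∈ K)
    (h : ∀ i, haveI := hN i; Sat W (G ⧸ N i)) : Sat W (G ⧸ K) := by
  classical
  have := hN
  have h1 : Sat W (∀ i, G ⧸ N i) := Sat.pi h
  let φ : G →* ∀ i, G ⧸ N i := MonoidHom.mk' (fun x i => (x : G ⧸ N i)) (by intro a b; rfl)
  have h2 : Sat W φ.range := h1.subgroup _
  have h3 : Sat W (G ⧸ φ.ker) :=
    h2.of_injective (QuotientGroup.quotientKerEquivRange φ).toMonoidHom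
      (QuotientGroup.quotientKerEquivRange φ).injective
  have hle : φ.ker ≤ K := by
    intro x hx
    apply hK
    intro i
    have := congrFun (MonoidHom.mem_ker.mp hx) i
    exact (QuotientGroup.eq_one_iff x).mp this
  refine h3.of_surjective (QuotientGroup.map φ.ker K (MonoidHom.id G) (by simpa using hle)) ?_
  intro y
  obtain ⟨x, rfl⟩ := QuotientGroup.mk_surjective y
  exact ⟨(x : G ⧸ φ.ker), by simp⟩

end Sat

section Ncl

variable {G H : Type*} [Group G] [Group H]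

theorem one_mem_Kc (c : G) : (1 : G) ∈ Kc c := ⟨1, 1, by group⟩

theorem Kc_conj {c x : G} (hx : x ∈ Kc c) (k : G) : k * x * k⁻¹ ∈ Kc c := by
  obtain ⟨g, h, rfl⟩ := hx
  exact ⟨g, k * h, by group⟩

theorem Kc_inv {c x : G} (hx : x ∈ Kc c) : x⁻¹ ∈ Kc c := by
  obtain ⟨g, h, rfl⟩ := hx
  exact ⟨g⁻¹, h * g, by group⟩

theorem Kc_of_conj (c k : G) : Kc (k * c * k⁻¹) = Kc c := by
  ext x
  constructor
  · rintro ⟨g, h, rfl⟩
    exact ⟨k⁻¹ * g * k, h * k, by group⟩
  · rintro ⟨g, h, rfl⟩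
    exact ⟨k * g * k⁻¹, h * k⁻¹, by group⟩

theorem Kc_map (φ : G →* H) {c x : G} (hx : x ∈ Kc c) : φ x ∈ Kc (φ c) := by
  obtain ⟨g, h, rfl⟩ := hx
  exact ⟨φ g, φ h, by simp⟩

theorem Ncl_succ {n : ℕ} {c x : G} : x ∈ Ncl (n + 1) c ↔ ∃ y ∈ Kc c, ∃ z ∈ Ncl n c, x = y * z :=
  Iff.rfl

theorem one_mem_Ncl (n : ℕ) (c : G) : (1 : G) ∈ Ncl n c := by
  induction n with
  | zero => rfl
  | succ n ih => exact ⟨1, one_mem_Kc c, 1, ih, by simp⟩

theorem Kc_sub_Ncl_one {c x : G} (hx : x ∈ Kc c) : x ∈ Ncl 1 c :=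
  ⟨x, hx, 1, rfl, by simp⟩

theorem Ncl_mul {n k : ℕ} {c x y : G} (hx : x ∈ Ncl n c) (hy : y ∈ Ncl k c) :
    x * y ∈ Ncl (n + k) c := by
  induction n generalizing x with
  | zero =>
    have : x = 1 := hx
    subst this
    simpa using hy
  | succ n ih =>
    obtain ⟨a, ha, b, hb, rfl⟩ := hx
    have e : n + 1 + k = (n + k) + 1 := by omega
    rw [e]
    exact ⟨a, ha, b * y, ih hb, by group⟩

theorem Ncl_mono {n k : ℕ} (h : n ≤ k) {c x : G} (hx : x ∈ Ncl n c) : x ∈ Ncl k c := by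
  obtain ⟨d, rfl⟩ := Nat.exists_eq_add_of_le h
  simpa using Ncl_mul hx (one_mem_Ncl d c)

theorem Ncl_conj {n : ℕ} {c x : G} (hx : x ∈ Ncl n c) (k : G) : k * x * k⁻¹ ∈ Ncl n c := by
  induction n generalizing x with
  | zero =>
    have : x = 1 := hx
    subst this
    simpa using one_mem_Ncl 0 c
  | succ n ih =>
    obtain ⟨a, ha, b, hb, rfl⟩ := hx
    exact ⟨k * a * k⁻¹, Kc_conj ha k, k * b * k⁻¹, ih hb, by group⟩

theorem Ncl_of_conj (n : ℕ) (c k : G) : Ncl n (k * c * k⁻¹) = Ncl n c := by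
  induction n with
  | zero => rfl
  | succ n ih =>
    ext x
    simp only [Ncl_succ, Kc_of_conj, ih]

theorem Ncl_inv {n : ℕ} {c x : G} (hx : x ∈ Ncl n c) : x⁻¹ ∈ Ncl n c := by
  induction n generalizing x with
  | zero =>
    have : x = 1 := hx
    subst this
    simpa using one_mem_Ncl 0 c
  | succ n ih =>
    obtain ⟨a, ha, b, hb, rfl⟩ := hx
    have := Ncl_mul (ih hb) (Kc_sub_Ncl_one (Kc_inv ha))
    simpa using this

theorem Ncl_map (φ : G →* H) {n : ℕ} {c x : G} (hx : x ∈ Ncl n c) : φ x ∈ Ncl n (φ c) := by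
  induction n generalizing x with
  | zero =>
    have : x = 1 := hx
    subst this
    simpa using one_mem_Ncl 0 (φ c)
  | succ n ih =>
    obtain ⟨a, ha, b, hb, rfl⟩ := hx
    exact ⟨φ a, Kc_map φ ha, φ b, ih hb, by simp⟩

/-- if `d ∈ Kc c` then `Ncl n d ⊆ Ncl (2 n) c` -/
theorem Ncl_of_Kc {n : ℕ} {c d x : G} (hd : d ∈ Kc c) (hx : x ∈ Ncl n d) : x ∈ Ncl (2 * n) c := by
  induction n generalizing x with
  | zero => exact hx
  | succ n ih =>
    obtain ⟨a, ⟨g, h, rfl⟩, b, hb, rfl⟩ := hx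
    have e : 2 * (n + 1) = 1 + 1 + 2 * n := by omega
    rw [e]
    refine Ncl_mul ?_ (ih hb)
    have h1 : h * d⁻¹ * h⁻¹ ∈ Kc c := Kc_conj (Kc_inv hd) h
    have h2 : (h * g) * d * (h * g)⁻¹ ∈ Kc c := Kc_conj hd (h * g)
    have e2 : h * (d⁻¹ * (g * d * g⁻¹)) * h⁻¹ = (h * d⁻¹ * h⁻¹) * ((h * g) * d * (h * g)⁻¹) := by
      group
    rw [e2]
    exact Ncl_mul (Kc_sub_Ncl_one h1) (Kc_sub_Ncl_one h2)

/-- commutators with `c` lie in `Kc c` -/
theorem comm_mem_Kc (c g : G) : c⁻¹ * (g * c * g⁻¹) ∈ Kc c := ⟨g, 1, by group⟩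

theorem comm_mem_Kc' (c g : G) : c * g * c⁻¹ * g⁻¹ ∈ Kc c := by
  have h := Kc_inv (Kc_conj (comm_mem_Kc c g) c)
  have e : (c * (c⁻¹ * (g * c * g⁻¹)) * c⁻¹)⁻¹ = c * g * c⁻¹ * g⁻¹ := by group
  rwa [e] at h

theorem comm_mem_Kc'' (c g : G) : g * c * g⁻¹ * c⁻¹ ∈ Kc c := by
  have h := Kc_inv (comm_mem_Kc' c g)
  have e : (c * g * c⁻¹ * g⁻¹)⁻¹ = g * c * g⁻¹ * c⁻¹ := by group
  rwa [e] at h

theorem Kc_sub_normal {N : Subgroup G} (hN : N.Normal) {c x : G} (hc : c ∈ N) (hx : x ∈ Kc c) :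
    x ∈ N := by
  obtain ⟨g, h, rfl⟩ := hx
  exact hN.conj_mem _ (N.mul_mem (N.inv_mem hc) (hN.conj_mem _ hc g)) h

theorem Ncl_sub_normal {N : Subgroup G} (hN : N.Normal) {n : ℕ} {c x : G} (hc : c ∈ N)
    (hx : x ∈ Ncl n c) : x ∈ N := by
  induction n generalizing x with
  | zero =>
    have : x = 1 := hx
    subst this
    exact N.one_mem
  | succ n ih =>
    obtain ⟨a, ha, b, hb, rfl⟩ := hx
    exact N.mul_mem (Kc_sub_normal hN hc ha) (ih hb)

end Ncl

section SI

variable {G : Type*} [Group G]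

/-- a normal subgroup maximal among those not containing `a` -/
theorem exists_max_avoid {N₀ : Subgroup G} (hN₀ : N₀.Normal) {a : G} (ha : a ∉ N₀) :
    ∃ N : Subgroup G, N.Normal ∧ N₀ ≤ N ∧ a ∉ N ∧
      ∀ K : Subgroup G, K.Normal → N ≤ K → N ≠ K → a ∈ K := by
  have hz : ∀ c ⊆ {N : Subgroup G | N.Normal ∧ a ∉ N}, IsChain (· ≤ ·) c → ∀ y ∈ c,
      ∃ ub ∈ {N : Subgroup G | N.Normal ∧ a ∉ N}, ∀ z ∈ c, z ≤ ub := by
    intro c hc hchain y hy
    have hne : c.Nonempty := ⟨y, hy⟩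
    have hdir : DirectedOn (· ≤ ·) c := hchain.directedOn
    refine ⟨sSup c, ⟨⟨fun x hx g => ?_⟩, fun hx => ?_⟩, fun z hz => le_sSup hz⟩
    · obtain ⟨K, hK, hxK⟩ := (Subgroup.mem_sSup_of_directedOn hne hdir).mp hx
      exact (Subgroup.mem_sSup_of_directedOn hne hdir).mpr ⟨K, hK, (hc hK).1.conj_mem x hxK g⟩
    · obtain ⟨K, hK, hxK⟩ := (Subgroup.mem_sSup_of_directedOn hne hdir).mp hx
      exact (hc hK).2 hxK
  obtain ⟨N, hN1, hN2⟩ := zorn_le_nonempty₀ _ hz N₀ ⟨hN₀, ha⟩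
  refine ⟨N, hN2.prop.1, hN1, hN2.prop.2, fun K hK hNK hne => ?_⟩
  by_contra haK
  exact hne (le_antisymm hNK (hN2.2 ⟨hK, haK⟩ hNK))

/-- the quotient by such a subgroup is subdirectly irreducible -/
theorem subdirIrr_quotient {N : Subgroup G} [N.Normal] {a : G} (ha : a ∉ N)
    (hmax : ∀ K : Subgroup G, K.Normal → N ≤ K → N ≠ K → a ∈ K) : SubdirIrr (G ⧸ N) := by
  refine ⟨Subgroup.normalClosure {(a : G ⧸ N)}, inferInstance, ?_, ?_⟩
  · intro h
    have h1 : (a : G ⧸ N) ∈ Subgroup.normalClosure {(a : G ⧸ N)} :=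
      Subgroup.subset_normalClosure (by simp)
    rw [h, Subgroup.mem_bot, QuotientGroup.eq_one_iff] at h1
    exact ha h1
  · intro K hK hne
    have := hK
    have h1 : a ∈ K.comap (QuotientGroup.mk' N) := by
      apply hmax _ inferInstance
      · intro x hx
        rw [Subgroup.mem_comap]
        have : (QuotientGroup.mk' N) x = 1 := (QuotientGroup.eq_one_iff x).mpr hx
        rw [this]; exact K.one_mem
      · intro hEq
        apply hne
        rw [eq_bot_iff]
        intro y hy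
        obtain ⟨x, rfl⟩ := QuotientGroup.mk_surjective y
        have : x ∈ K.comap (QuotientGroup.mk' N) := hy
        rw [← hEq] at this
        rw [Subgroup.mem_bot]
        exact (QuotientGroup.eq_one_iff x).mpr this
    apply Subgroup.normalClosure_le_normal
    intro z hz
    rw [Set.mem_singleton_iff] at hz
    subst hz
    exact h1

end SI

end Pool.Agent.helper80.RSV
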