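import Mathlib

/-!
# Residually small varieties of groups: definitions

A variety of groups is given by a set `W` of laws (words in the free group of countable rank).
-/

namespace Pool.Agent.helper80.RSV

/-- `w` is a law of the group `G`. -/
def Law (w : FreeGroup ℕ) (G : Type*) [Group G] : Prop :=
  ∀ f : ℕ → G, FreeGroup.lift f w = 1

/-- `G` belongs to the variety defined by the set of laws `W`. -/
def Sat (W : Set (FreeGroup ℕ)) (G : Type*) [Group G] : Prop := ∀ w ∈ W, Law w G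

/-- `G` belongs to the variety generated by `F`: every law of `F` is a law of `G`. -/
def InVar (F : Type*) [Group F] (G : Type*) [Group G] : Prop := ∀ w, Law w F → Law w G

/-- `G` is subdirectly irreducible: it has a least nontrivial normal subgroup. -/
def SubdirIrr (G : Type*) [Group G] : Prop :=
  ∃ M : Subgroup G, M.Normal ∧ M ≠ ⊥ ∧ ∀ N : Subgroup G, N.Normal → N ≠ ⊥ → M ≤ N

/-- The variety defined by `W` is residually small: the cardinalities of its subdirectly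
irreducible members are bounded. -/
def ResSmall (W : Set (FreeGroup ℕ)) : Prop :=
  ∃ κ : Cardinal.{0}, ∀ (G : Type) [Group G], Sat W G → SubdirIrr G → Cardinal.mk G < κ

/-- `G` has a normal soluble subgroup of finite index. -/
def VirtSol (G : Type*) [Group G] : Prop :=
  ∃ N : Subgroup G, N.Normal ∧ N.FiniteIndex ∧ Group.IsSolvable N

/-- All Sylow subgroups of `G` are abelian. -/
def AbSylow (G : Type*) [Group G] : Prop :=
  ∀ p : ℕ, p.Prime → ∀ P : Sylow p G, ∀ x ∈ P, ∀ y ∈ P, x * y = y * x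

/-! ## Working definitions -/

/-- `{(c⁻¹ c^g)^h : g, h}` -/
def Kc {G : Type*} [Group G] (c : G) : Set G :=
  {x | ∃ g h : G, x = h * (c⁻¹ * (g * c * g⁻¹)) * h⁻¹}

/-- products of `n` elements of `Kc c` -/
def Ncl {G : Type*} [Group G] : ℕ → G → Set G
  | 0, _ => {1}
  | n + 1, c => {x | ∃ y ∈ Kc c, ∃ z ∈ Ncl n c, x = y * z}

/-- bounded form of residual smallness -/
def Bdd (W : Set (FreeGroup ℕ)) : Prop :=
  ∀ n : ℕ, ∃ m : ℕ, ∀ (G : Type) [Group G], Sat W G → ∀ a : G, a ≠ 1 → ∀ c : Fin m → G,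
    ∃ i j, i ≠ j ∧ a ∉ Ncl n ((c i)⁻¹ * c j)

/-- `K' ∩ Z(K) = 1` for all subgroups `K` of `G` -/
def ZP (G : Type*) [Group G] : Prop :=
  ∀ K : Subgroup G, ∀ x ∈ ⁅K, K⁆, (∀ k ∈ K, k * x = x * k) → x = 1

/-- uniform exponent for the action on abelian normal subgroups -/
def ExpP (E : ℕ) (G : Type*) [Group G] : Prop :=
  ∀ M : Subgroup G, M.Normal → (∀ x ∈ M, ∀ y ∈ M, x * y = y * x) → ∀ t : G, ∀ m ∈ M,
    t ^ E * m = m * t ^ E ∧ (m * t * m⁻¹ * t⁻¹) ^ E = 1

/-- all elements of the subgroup commute -/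
def AbSub {G : Type*} [Group G] (K : Subgroup G) : Prop := ∀ x ∈ K, ∀ y ∈ K, x * y = y * x

/-- minimal normal subgroup -/
def MinNormal {G : Type*} [Group G] (N : Subgroup G) : Prop :=
  N.Normal ∧ N ≠ ⊥ ∧ ∀ K : Subgroup G, K.Normal → K ≤ N → K ≠ ⊥ → K = N

/-- least nontrivial normal subgroup -/
def LeastNormal {G : Type*} [Group G] (M : Subgroup G) : Prop :=
  M.Normal ∧ M ≠ ⊥ ∧ ∀ N : Subgroup G, N.Normal → N ≠ ⊥ → M ≤ N

/-- the join of the nonabelian minimal normal subgroups -/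
def Snab (G : Type*) [Group G] : Subgroup G := sSup {N | MinNormal N ∧ ¬ AbSub N}

/-- `K' ∩ L ≤ [L, K]` for all `L ⊲ K ≤ G` -/
def Star (G : Type*) [Group G] : Prop :=
  ∀ K L : Subgroup G, L ≤ K → (∀ k ∈ K, ∀ l ∈ L, k * l * k⁻¹ ∈ L) → ∀ x ∈ ⁅K, K⁆, x ∈ L →
    x ∈ ⁅L, K⁆

end Pool.Agent.helper80.RSV
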