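import Pool.Agent.helper80.RSV.D23

/-!
# Modules D5, D6: acting groups on an abelian minimal normal subgroup
-/

namespace Pool.Agent.helper80.RSV

open Function

namespace D56

/-- `W` is normalised by `A` -/
def Inv {G : Type*} [Group G] (A W : Subgroup G) : Prop := ∀ a ∈ A, ∀ w ∈ W, a * w * a⁻¹ ∈ W

theorem exists_min_inv {G : Type*} [Group G] [Finite G] {M A : Subgroup G} (hM : MinNormal M) :
    ∃ W ≤ M, W ≠ ⊥ ∧ Inv A W ∧ ∀ K ≤ W, K ≠ ⊥ → Inv A K → K = W := by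
  let S : Set (Subgroup G) := {W | W ≤ M ∧ W ≠ ⊥ ∧ Inv A W}
  have hne : S.Nonempty := ⟨M, le_rfl, hM.2.1, fun a _ w hw => hM.1.conj_mem w hw a⟩
  obtain ⟨W, hW, hmin⟩ := WellFounded.has_min (wellFounded_lt (α := Subgroup G)) S hne
  refine ⟨W, hW.1, hW.2.1, hW.2.2, fun K hKW hK1 hK2 => ?_⟩
  by_contra hne
  exact hmin K ⟨hKW.trans hW.1, hK1, hK2⟩ (lt_of_le_of_ne hKW hne)

theorem moves {G : Type*} [Group G] {M W : Subgroup G} (hM : MinNormal M) (hWM : W ≤ M)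
    (hW : W ≠ ⊥) {c : G} (hc : c ∉ Subgroup.centralizer (M : Set G)) :
    ∃ g : G, ∃ w ∈ W, (g⁻¹ * c * g) * w ≠ w * (g⁻¹ * c * g) := by
  by_contra hcon
  push Not at hcon
  apply hc
  have h1 : Subgroup.normalClosure (W : Set G) = M := by
    apply hM.2.2 _ inferInstance
    · have := hM.1
      exact Subgroup.normalClosure_le_normal hWM
    · intro h
      apply hW
      rw [eq_bot_iff, ← h]
      exact Subgroup.subset_normalClosure
  rw [Subgroup.mem_centralizer_iff]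
  intro x hx
  have h2 : M ≤ Subgroup.centralizer ({c} : Set G) := by
    rw [← h1, Subgroup.normalClosure, Subgroup.closure_le]
    intro y hy
    rw [Group.mem_conjugatesOfSet_iff] at hy
    obtain ⟨w, hw, hwy⟩ := hy
    obtain ⟨g, rfl⟩ := isConj_iff.mp hwy
    rw [SetLike.mem_coe, Subgroup.mem_centralizer_singleton_iff]
    have := hcon g w hw
    calc g * w * g⁻¹ * c = g * (w * (g⁻¹ * c * g)) * g⁻¹ := by group
      _ = g * ((g⁻¹ * c * g) * w) * g⁻¹ := by rw [this]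
      _ = c * (g * w * g⁻¹) := by group
  have h3 := h2 hx
  rw [Subgroup.mem_centralizer_singleton_iff] at h3
  exact h3

/-- `w ↦ [w, c]` as a homomorphism of `W` -/
theorem exists_comm_hom {G : Type*} [Group G] {W : Subgroup G} (hW : AbSub W) {c : G}
    (hc : ∀ w ∈ W, c * w * c⁻¹ ∈ W) :
    ∃ φ : W →* G, (∀ w : W, φ w = w * c * (w : G)⁻¹ * c⁻¹) ∧ ∀ w : W, φ w ∈ W := by
  refine ⟨MonoidHom.mk' (fun w : W => (w : G) * c * (w : G)⁻¹ * c⁻¹) ?_, fun w => rfl, ?_⟩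
  · intro x y
    show ((x * y : W) : G) * c * ((x * y : W) : G)⁻¹ * c⁻¹ =
      ((x : G) * c * (x : G)⁻¹ * c⁻¹) * ((y : G) * c * (y : G)⁻¹ * c⁻¹)
    simp only [Subgroup.coe_mul, mul_inv_rev]
    have h1 : c * (y : G)⁻¹ * c⁻¹ ∈ W := hc _ (W.inv_mem y.2)
    have h2 : c * (x : G)⁻¹ * c⁻¹ ∈ W := hc _ (W.inv_mem x.2)
    have h3 := hW _ y.2 _ h2
    have h4 := hW _ h1 _ h2
    calc (x : G) * y * c * ((y : G)⁻¹ * (x : G)⁻¹) * c⁻¹
        = x * y * ((c * (y : G)⁻¹ * c⁻¹) * (c * (x : G)⁻¹ * c⁻¹)) := by group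
      _ = x * y * ((c * (x : G)⁻¹ * c⁻¹) * (c * (y : G)⁻¹ * c⁻¹)) := by rw [h4]
      _ = x * (y * (c * (x : G)⁻¹ * c⁻¹)) * (c * (y : G)⁻¹ * c⁻¹) := by group
      _ = x * ((c * (x : G)⁻¹ * c⁻¹) * y) * (c * (y : G)⁻¹ * c⁻¹) := by rw [h3]
      _ = (x : G) * c * (x : G)⁻¹ * c⁻¹ * ((y : G) * c * (y : G)⁻¹ * c⁻¹) := by group
  · intro w
    show (w : G) * c * (w : G)⁻¹ * c⁻¹ ∈ W
    have h1 : c * (w : G)⁻¹ * c⁻¹ ∈ W := hc _ (W.inv_mem w.2)
    have := W.mul_mem w.2 h1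
    have e : (w : G) * (c * (w : G)⁻¹ * c⁻¹) = w * c * (w : G)⁻¹ * c⁻¹ := by group
    rwa [e] at this

theorem ncl_lift {G : Type*} [Group G] {C : Subgroup G} [C.Normal] {n : ℕ} {c : G} {x : G ⧸ C}
    (hx : x ∈ Ncl n (c : G ⧸ C)) : ∃ y ∈ Ncl n c, (y : G ⧸ C) = x := by
  induction n generalizing x with
  | zero =>
    have : x = 1 := hx
    exact ⟨1, rfl, by rw [this]; rfl⟩
  | succ n ih =>
    obtain ⟨a, ⟨g, h, rfl⟩, b, hb, rfl⟩ := hx
    obtain ⟨b', hb', rfl⟩ := ih hb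
    obtain ⟨g', rfl⟩ := QuotientGroup.mk_surjective g
    obtain ⟨h', rfl⟩ := QuotientGroup.mk_surjective h
    exact ⟨_, ⟨_, ⟨g', h', rfl⟩, b', hb', rfl⟩, rfl⟩

theorem ncl_prod {G : Type*} [Group G] {W : Subgroup G} (hW : AbSub W) {ι : Type*} [Finite ι]
    (φ : ι → (W →* G)) (hφ : ∀ i w, φ i w ∈ W) {K : Subgroup G}
    (hK : K ≤ Subgroup.closure {x | ∃ i w, φ i w = x}) {n : ℕ} {c : G}
    (hn : ∀ i w, φ i w ∈ Ncl n c) : ∀ a ∈ K, a ∈ Ncl (n * Nat.card ι) c := by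
  classical
  have := Fintype.ofFinite ι
  rw [Nat.card_eq_fintype_card, ← Finset.card_univ]
  -- products over finsets
  have key : ∀ s : Finset ι, ∀ a ∈ Subgroup.closure {x | ∃ i ∈ s, ∃ w, φ i w = x},
      a ∈ Ncl (n * s.card) c := by
    intro s
    induction s using Finset.induction_on with
    | empty =>
      intro a ha
      have : {x : G | ∃ i ∈ (∅ : Finset ι), ∃ w, φ i w = x} = ∅ := by ext; simp
      rw [this, Subgroup.closure_empty, Subgroup.mem_bot] at ha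
      rw [ha]
      exact one_mem_Ncl _ _
    | insert i s hi ih =>
      intro a ha
      rw [Finset.card_insert_of_notMem hi]
      have h1 : Subgroup.closure {x | ∃ j ∈ insert i s, ∃ w, φ j w = x} ≤
          (φ i).range ⊔ Subgroup.closure {x | ∃ j ∈ s, ∃ w, φ j w = x} := by
        rw [Subgroup.closure_le]
        rintro x ⟨j, hj, w, rfl⟩
        rcases Finset.mem_insert.mp hj with rfl | hj
        · exact (le_sup_left : (φ j).range ≤ _) ⟨w, rfl⟩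
        · exact (le_sup_right : Subgroup.closure _ ≤ (φ i).range ⊔ _)
            (Subgroup.subset_closure ⟨j, hj, w, rfl⟩)
      have hcl : Subgroup.closure {x | ∃ j ∈ s, ∃ w, φ j w = x} ≤ W := by
        rw [Subgroup.closure_le]
        rintro x ⟨j, _, w, rfl⟩
        exact hφ j w
      have h2 := h1 ha
      -- decompose
      have h3 : ∀ x ∈ (φ i).range ⊔ Subgroup.closure {x | ∃ j ∈ s, ∃ w, φ j w = x},
          ∃ y ∈ (φ i).range, ∃ z ∈ Subgroup.closure {x | ∃ j ∈ s, ∃ w, φ j w = x}, y * z = x := by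
        intro x hx
        have hcomm : ∀ u ∈ (φ i).range,
            ∀ v ∈ Subgroup.closure {x | ∃ j ∈ s, ∃ w, φ j w = x}, u * v = v * u := by
          rintro u ⟨w, rfl⟩ v hv
          exact hW _ (hφ i w) _ (hcl hv)
        let Q : Subgroup G :=
          { carrier := {x | ∃ y ∈ (φ i).range,
              ∃ z ∈ Subgroup.closure {x | ∃ j ∈ s, ∃ w, φ j w = x}, y * z = x}
            one_mem' := ⟨1, Subgroup.one_mem _, 1, Subgroup.one_mem _, by simp⟩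
            mul_mem' := by
              rintro _ _ ⟨y, hy, z, hz, rfl⟩ ⟨y', hy', z', hz', rfl⟩
              refine ⟨y * y', Subgroup.mul_mem _ hy hy', z * z', Subgroup.mul_mem _ hz hz', ?_⟩
              have := hcomm y' hy' z hz
              calc y * y' * (z * z') = y * (y' * z) * z' := by group
                _ = y * (z * y') * z' := by rw [this]
                _ = y * z * (y' * z') := by group
            inv_mem' := by
              rintro _ ⟨y, hy, z, hz, rfl⟩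
              refine ⟨y⁻¹, Subgroup.inv_mem _ hy, z⁻¹, Subgroup.inv_mem _ hz, ?_⟩
              have := hcomm y⁻¹ (Subgroup.inv_mem _ hy) z⁻¹ (Subgroup.inv_mem _ hz)
              rw [this]; group }
        have hQ : (φ i).range ⊔ Subgroup.closure {x | ∃ j ∈ s, ∃ w, φ j w = x} ≤ Q :=
          sup_le (fun y hy => ⟨y, hy, 1, Subgroup.one_mem _, by simp⟩)
            (fun z hz => ⟨1, Subgroup.one_mem _, z, hz, by simp⟩)
        exact hQ hx
      obtain ⟨y, ⟨w, rfl⟩, z, hz, rfl⟩ := h3 a h2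
      have e : n * (s.card + 1) = n + n * s.card := by ring
      rw [e]
      exact Ncl_mul (hn i w) (ih z hz)
  intro a ha
  apply key Finset.univ
  have : {x | ∃ i ∈ (Finset.univ : Finset ι), ∃ w, φ i w = x} = {x | ∃ i w, φ i w = x} := by
    ext; simp
  rw [this]
  exact hK ha

end D56

open D56

theorem ncl_abelian {G : Type} [Group G] [Finite G] {M C A : Subgroup G} (hM : MinNormal M)
    (hMab : AbSub M) (hC : C = Subgroup.centralizer M) (hA : A.Normal) (_hCA : C ≤ A)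
    (hAC : ∀ x ∈ A, ∀ y ∈ A, x * y * x⁻¹ * y⁻¹ ∈ C) :
    ∃ a ∈ M, a ≠ 1 ∧ ∀ c ∈ A, c ∉ C → a ∈ Ncl 1 c := by
  obtain ⟨W, hWM, hW1, hWA, hmin⟩ := exists_min_inv (A := A) hM
  obtain ⟨a, ha1⟩ := (Subgroup.ne_bot_iff_exists_ne_one.mp hW1)
  have hWab : AbSub W := fun x hx y hy => hMab x (hWM hx) y (hWM hy)
  refine ⟨a, hWM a.2, fun h => ha1 (Subtype.ext h), fun c hcA hcC => ?_⟩
  obtain ⟨g, w0, hw0, hne⟩ := moves hM hWM hW1 (c := c) (by rw [← hC]; exact hcC)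
  have hc1A : g⁻¹ * c * g ∈ A := by
    have := hA.conj_mem c hcA g⁻¹
    simpa using this
  have e0 : Ncl 1 c = Ncl 1 (g⁻¹ * c * g) := by
    have := Ncl_of_conj 1 c g⁻¹
    rw [inv_inv] at this
    exact this.symm
  rw [e0]
  obtain ⟨c1, hc1⟩ : ∃ c1, c1 = g⁻¹ * c * g := ⟨_, rfl⟩
  rw [← hc1] at hne hc1A ⊢
  obtain ⟨φ, hφ, hφW⟩ := exists_comm_hom hWab (c := c1) (fun w hw => hWA c1 hc1A w hw)
  have hr : φ.range = W := by
    apply hmin
    · rintro _ ⟨w, rfl⟩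
      exact hφW w
    · intro h
      apply hne
      have h1 : φ ⟨w0, hw0⟩ ∈ φ.range := ⟨_, rfl⟩
      rw [h, Subgroup.mem_bot, hφ] at h1
      have h2 : w0 * c1 * w0⁻¹ = c1 := mul_inv_eq_one.mp h1
      rw [mul_inv_eq_iff_eq_mul] at h2
      exact h2.symm
    · rintro x hx _ ⟨w, rfl⟩
      refine ⟨⟨x * w * x⁻¹, hWA x hx w w.2⟩, ?_⟩
      rw [hφ, hφ]
      show x * w * x⁻¹ * c1 * (x * w * x⁻¹)⁻¹ * c1⁻¹ = x * (w * c1 * (w : G)⁻¹ * c1⁻¹) * x⁻¹
      -- `z = c1⁻¹ x⁻¹ c1 x` centralises `W`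
      have hz : x⁻¹ * c1 * x * c1⁻¹ ∈ C := by
        have := hAC x⁻¹ (A.inv_mem hx) c1 hc1A
        simpa using this
      rw [hC, Subgroup.mem_centralizer_iff] at hz
      have hm : c1 * (w : G)⁻¹ * c1⁻¹ ∈ M := hM.1.conj_mem _ (M.inv_mem (hWM w.2)) c1
      have h1 := hz _ hm
      calc x * w * x⁻¹ * c1 * (x * w * x⁻¹)⁻¹ * c1⁻¹
          = x * w * ((x⁻¹ * c1 * x * c1⁻¹) * (c1 * (w : G)⁻¹ * c1⁻¹)) *
            (x⁻¹ * c1 * x * c1⁻¹)⁻¹ * x⁻¹ := by group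
        _ = x * w * ((c1 * (w : G)⁻¹ * c1⁻¹) * (x⁻¹ * c1 * x * c1⁻¹)) *
            (x⁻¹ * c1 * x * c1⁻¹)⁻¹ * x⁻¹ := by rw [h1]
        _ = x * (w * c1 * (w : G)⁻¹ * c1⁻¹) * x⁻¹ := by group
  have ha : (a : G) ∈ φ.range := by rw [hr]; exact a.2
  obtain ⟨w, hw⟩ := ha
  rw [← hw, hφ]
  exact Kc_sub_Ncl_one (comm_mem_Kc'' c1 w)

theorem ncl_comp {G : Type} [Group G] [Finite G] {M C S : Subgroup G} [C.Normal]
    (hM : MinNormal M) (hMab : AbSub M) (hC : C = Subgroup.centralizer M) (hS : S.Normal)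
    (hCS : C ≤ S) (B : ℕ) :
    ∃ a ∈ M, a ≠ 1 ∧ ∀ T : Subgroup (G ⧸ C), IsSimpleGroup T → ¬ AbSub T → Nat.card T ≤ B →
      T ≤ S.map (QuotientGroup.mk' C) → S.map (QuotientGroup.mk' C) ≤ Subgroup.normalizer T →
      ∀ c : G, (c : G ⧸ C) ∈ T → (c : G ⧸ C) ≠ 1 → a ∈ Ncl (2 * B * B) c := by
  obtain ⟨W, hWM, hW1, hWS, hmin⟩ := exists_min_inv (A := S) hM
  obtain ⟨a, ha1⟩ := (Subgroup.ne_bot_iff_exists_ne_one.mp hW1)
  have hWab : AbSub W := fun x hx y hy => hMab x (hWM hx) y (hWM hy)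
  refine ⟨a, hWM a.2, fun h => ha1 (Subtype.ext h), fun T hTs hTna hTB hTS hTn c hcT hc1 => ?_⟩
  obtain ⟨g, w0, hw0, hne⟩ := moves hM hWM hW1 (c := c) (by
    rw [← hC]; intro h; exact hc1 ((QuotientGroup.eq_one_iff c).mpr h))
  have e0 : Ncl (2 * B * B) c = Ncl (2 * B * B) (g⁻¹ * c * g) := by
    have := Ncl_of_conj (2 * B * B) c g⁻¹
    rw [inv_inv] at this
    exact this.symm
  rw [e0]
  obtain ⟨c1, hcc⟩ : ∃ c1, c1 = g⁻¹ * c * g := ⟨_, rfl⟩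
  rw [← hcc] at hne ⊢
  -- membership in `S`
  have hmemS : ∀ x : G, (x : G ⧸ C) ∈ S.map (QuotientGroup.mk' C) → x ∈ S := by
    rintro x ⟨y, hy, hyx⟩
    have h1 : y⁻¹ * x ∈ C := QuotientGroup.eq.mp hyx
    have h2 : x = y * (y⁻¹ * x) := by group
    rw [h2]
    exact S.mul_mem hy (hCS h1)
  -- the conjugate of `T`
  have hT1 : ∀ x : G ⧸ C, (g : G ⧸ C) * x * (g : G ⧸ C)⁻¹ ∈ T → ∀ s : G ⧸ C,
      s ∈ S.map (QuotientGroup.mk' C) →
      (g : G ⧸ C) * (s * x * s⁻¹) * (g : G ⧸ C)⁻¹ ∈ T := by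
    intro x hx s hs
    have hs' : (g : G ⧸ C) * s * (g : G ⧸ C)⁻¹ ∈ S.map (QuotientGroup.mk' C) := by
      obtain ⟨s', hs', rfl⟩ := hs
      exact ⟨g * s' * g⁻¹, hS.conj_mem s' hs' g, by simp⟩
    have h1 := (Subgroup.mem_normalizer_iff.mp (hTn hs')) ((g : G ⧸ C) * x * (g : G ⧸ C)⁻¹)
    have h2 := h1.mp hx
    have e : (g : G ⧸ C) * s * (g : G ⧸ C)⁻¹ * ((g : G ⧸ C) * x * (g : G ⧸ C)⁻¹) *
      ((g : G ⧸ C) * s * (g : G ⧸ C)⁻¹)⁻¹ = (g : G ⧸ C) * (s * x * s⁻¹) * (g : G ⧸ C)⁻¹ := by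
      group
    rwa [e] at h2
  have hT1S : ∀ x : G ⧸ C, (g : G ⧸ C) * x * (g : G ⧸ C)⁻¹ ∈ T →
      x ∈ S.map (QuotientGroup.mk' C) := by
    intro x hx
    obtain ⟨s, hs, hsx⟩ := hTS hx
    refine ⟨g⁻¹ * s * g, ?_, ?_⟩
    · have := hS.conj_mem s hs g⁻¹
      simpa using this
    · have h1 : (s : G ⧸ C) = (g : G ⧸ C) * x * (g : G ⧸ C)⁻¹ := hsx
      show ((g⁻¹ * s * g : G) : G ⧸ C) = x
      simp only [QuotientGroup.mk_mul, QuotientGroup.mk_inv]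
      rw [h1]; group
  -- lifts of the elements of `T` (conjugated)
  have hgen : ∀ t : T, ∃ y ∈ Ncl B c1, (y : G ⧸ C) = (g : G ⧸ C)⁻¹ * t * g := by
    intro t
    have hna : ∃ x y : T, x * y ≠ y * x := by
      by_contra hcon
      push Not at hcon
      exact hTna fun x hx y hy => congrArg Subtype.val (hcon ⟨x, hx⟩ ⟨y, hy⟩)
    have h1 : t ∈ Ncl B (⟨c, hcT⟩ : T) := ncl_simple hna hTB (fun h => hc1 (congrArg Subtype.val h)) t
    have h2 : (t : G ⧸ C) ∈ Ncl B (c : G ⧸ C) := Ncl_map T.subtype h1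
    have h3 : (g : G ⧸ C)⁻¹ * t * g ∈ Ncl B (c1 : G ⧸ C) := by
      have h4 := Ncl_conj h2 (g : G ⧸ C)⁻¹
      rw [inv_inv] at h4
      have h5 := Ncl_of_conj B (c : G ⧸ C) (g : G ⧸ C)⁻¹
      rw [inv_inv] at h5
      rw [hcc]
      simp only [QuotientGroup.mk_mul, QuotientGroup.mk_inv]
      rw [h5]
      exact h4
    exact ncl_lift h3
  choose y hy hyt using hgen
  have hyS : ∀ t, y t ∈ S := by
    intro t
    apply hmemS
    apply hT1S
    rw [hyt]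
    have : (g : G ⧸ C) * ((g : G ⧸ C)⁻¹ * t * g) * (g : G ⧸ C)⁻¹ = t := by group
    rw [this]
    exact t.2
  have hφ : ∀ t : T, ∃ φ : W →* G, (∀ w : W, φ w = w * y t * (w : G)⁻¹ * (y t)⁻¹) ∧
      ∀ w : W, φ w ∈ W := fun t =>
    exists_comm_hom hWab (c := y t) (fun w hw => hWS (y t) (hyS t) w hw)
  choose φ hφ1 hφ2 using hφ
  -- commutators with arbitrary lifts
  have hgen2 : ∀ (t : T) (u : G), (u : G ⧸ C) = (g : G ⧸ C)⁻¹ * t * g → ∀ w : W,
      (w : G) * u * (w : G)⁻¹ * u⁻¹ = φ t w := by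
    intro t u hu w
    rw [hφ1]
    have hz : (y t)⁻¹ * u ∈ C := QuotientGroup.eq.mp (by rw [hyt, hu])
    rw [hC, Subgroup.mem_centralizer_iff] at hz
    have h1 := hz _ (M.inv_mem (hWM w.2))
    calc (w : G) * u * (w : G)⁻¹ * u⁻¹
        = w * y t * (((y t)⁻¹ * u) * (w : G)⁻¹) * u⁻¹ := by group
      _ = w * y t * ((w : G)⁻¹ * ((y t)⁻¹ * u)) * u⁻¹ := by rw [h1]
      _ = (w : G) * y t * (w : G)⁻¹ * (y t)⁻¹ := by group
  have hKW : Subgroup.closure {x | ∃ (t : T) (w : W), φ t w = x} = W := by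
    apply hmin
    · rw [Subgroup.closure_le]
      rintro x ⟨t, w, rfl⟩
      exact hφ2 t w
    · intro h
      apply hne
      have hcT1 : (c1 : G ⧸ C) = (g : G ⧸ C)⁻¹ * (⟨c, hcT⟩ : T) * g := by
        rw [hcc]; simp
      have h1 := hgen2 ⟨c, hcT⟩ c1 hcT1 ⟨w0, hw0⟩
      have h2 : φ ⟨c, hcT⟩ ⟨w0, hw0⟩ ∈ Subgroup.closure {x | ∃ (t : T) (w : W), φ t w = x} :=
        Subgroup.subset_closure ⟨_, _, rfl⟩
      rw [h, Subgroup.mem_bot, ← h1] at h2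
      have h3 : w0 * c1 * w0⁻¹ = c1 := mul_inv_eq_one.mp h2
      rw [mul_inv_eq_iff_eq_mul] at h3
      exact h3.symm
    · intro s hs x hx
      have hle : Subgroup.closure {x | ∃ (t : T) (w : W), φ t w = x} ≤
          (Subgroup.closure {x | ∃ (t : T) (w : W), φ t w = x}).comap
            (MulAut.conj s).toMonoidHom := by
        rw [Subgroup.closure_le]
        rintro _ ⟨t, w, rfl⟩
        rw [SetLike.mem_coe, Subgroup.mem_comap]
        show s * φ t w * s⁻¹ ∈ _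
        have hmem : (g : G ⧸ C) * ((s : G ⧸ C) * ((g : G ⧸ C)⁻¹ * t * g) * (s : G ⧸ C)⁻¹) *
            (g : G ⧸ C)⁻¹ ∈ T := by
          apply hT1 _ _ _ ⟨s, hs, rfl⟩
          have : (g : G ⧸ C) * ((g : G ⧸ C)⁻¹ * t * g) * (g : G ⧸ C)⁻¹ = t := by group
          rw [this]; exact t.2
        have h1 := hgen2 ⟨_, hmem⟩ (s * y t * s⁻¹) (by
          simp only [QuotientGroup.mk_mul, QuotientGroup.mk_inv, hyt]; group)
          ⟨s * w * s⁻¹, hWS s hs w w.2⟩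
        have h2 : s * φ t w * s⁻¹ = φ ⟨_, hmem⟩ ⟨s * w * s⁻¹, hWS s hs w w.2⟩ := by
          rw [← h1, hφ1]; group
        rw [h2]
        exact Subgroup.subset_closure ⟨_, _, rfl⟩
      exact hle hx
  have hfinal := ncl_prod hWab φ hφ2 (K := W) (by rw [hKW]) (n := 2 * B) (c := c1) (by
    intro t w
    rw [hφ1]
    have e : 2 * B = B + B := by ring
    rw [e]
    exact Ncl_mul (Ncl_conj (hy t) w) (Ncl_inv (hy t))) a a.2
  exact Ncl_mono (Nat.mul_le_mul_left _ hTB) hfinal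

end Pool.Agent.helper80.RSV
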