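import Pool.Agent.helper80.RSV.Base

/-!
# Module D8: characters of an abelian centraliser of the monolith
-/

namespace Pool.Agent.helper80.RSV

open Function

theorem exists_char {G : Type} [Group G] {M C : Subgroup G} [C.Normal] (hM : LeastNormal M)
    (hMC : M ≤ C) (hC : AbSub C) (_hfin : Finite (G ⧸ C)) :
    ∃ χ : C →* Multiplicative ((G ⧸ C) → AddCircle (1 : ℚ)), Injective χ := by
  classical
  let _ : CommGroup C := { (inferInstance : Group C) with
    mul_comm := fun x y => Subtype.ext (hC x x.2 y y.2) }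
  obtain ⟨a, ha⟩ := Subgroup.ne_bot_iff_exists_ne_one.mp hM.2.1
  have haC : (a : G) ∈ C := hMC a.2
  have hane : Additive.ofMul (⟨a, haC⟩ : C) ≠ 0 := by
    intro h
    have h1 : (⟨a, haC⟩ : C) = 1 := Additive.ofMul.injective h
    have h2 : (a : G) = 1 := congrArg (Subtype.val : C → G) h1
    exact ha (Subtype.ext h2)
  obtain ⟨l, hl⟩ := CharacterModule.exists_character_apply_ne_zero_of_ne_zero hane
  have hCn : C.Normal := inferInstance
  have hconj : ∀ (g : G) (c : C), g⁻¹ * c * g ∈ C := fun g c => by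
    have := hCn.conj_mem c c.2 g⁻¹
    simpa using this
  let cj : G → C →* C := fun g => MonoidHom.mk' (fun c => ⟨g⁻¹ * c * g, hconj g c⟩) (by
    intro x y
    apply Subtype.ext
    show g⁻¹ * ((x * y : C) : G) * g = (g⁻¹ * x * g) * (g⁻¹ * y * g)
    simp only [Subgroup.coe_mul]
    group)
  have hcj : ∀ (g z : G) (_ : z ∈ C) (c : C), cj (g * z) c = cj g c := by
    intro g z hz c
    apply Subtype.ext
    show (g * z)⁻¹ * c * (g * z) = g⁻¹ * c * g
    have h1 := hC _ (hconj g c) z hz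
    calc (g * z)⁻¹ * c * (g * z) = z⁻¹ * ((g⁻¹ * c * g) * z) := by group
      _ = z⁻¹ * (z * (g⁻¹ * c * g)) := by rw [h1]
      _ = g⁻¹ * c * g := by group
  let χ : C →* Multiplicative ((G ⧸ C) → AddCircle (1 : ℚ)) :=
    MonoidHom.mk' (fun c => Multiplicative.ofAdd fun q => l (Additive.ofMul (cj q.out c))) (by
      intro x y
      apply Multiplicative.toAdd.injective
      funext q
      show l (Additive.ofMul (cj q.out (x * y))) =
        l (Additive.ofMul (cj q.out x)) + l (Additive.ofMul (cj q.out y))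
      rw [map_mul, ofMul_mul, map_add])
  refine ⟨χ, ?_⟩
  rw [injective_iff_map_eq_one]
  intro c hc
  by_contra hne
  have hχ : ∀ q : G ⧸ C, l (Additive.ofMul (cj q.out c)) = 0 := fun q =>
    congrFun (congrArg Multiplicative.toAdd hc) q
  have hall : ∀ g : G, l (Additive.ofMul (cj g c)) = 0 := by
    intro g
    have h1 : ((g : G ⧸ C).out)⁻¹ * g ∈ C := by
      rw [← QuotientGroup.eq]
      exact QuotientGroup.out_eq' (g : G ⧸ C)
    have h2 := hcj (g : G ⧸ C).out _ h1 c
    have h3 : (g : G ⧸ C).out * (((g : G ⧸ C).out)⁻¹ * g) = g := by group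
    rw [h3] at h2
    rw [h2]
    exact hχ g
  -- the normal subgroup killed by all conjugates of the character
  let K : Subgroup G :=
    { carrier := {x | ∃ hx : x ∈ C, ∀ g : G, l (Additive.ofMul (cj g ⟨x, hx⟩)) = 0}
      one_mem' := ⟨C.one_mem, fun g => by
        have : (⟨1, C.one_mem⟩ : C) = 1 := rfl
        rw [this, map_one, ofMul_one, map_zero]⟩
      mul_mem' := by
        rintro x y ⟨hx, hx'⟩ ⟨hy, hy'⟩
        refine ⟨C.mul_mem hx hy, fun g => ?_⟩
        have : (⟨x * y, C.mul_mem hx hy⟩ : C) = ⟨x, hx⟩ * ⟨y, hy⟩ := rfl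
        rw [this, map_mul, ofMul_mul, map_add, hx', hy', add_zero]
      inv_mem' := by
        rintro x ⟨hx, hx'⟩
        refine ⟨C.inv_mem hx, fun g => ?_⟩
        have : (⟨x⁻¹, C.inv_mem hx⟩ : C) = (⟨x, hx⟩ : C)⁻¹ := rfl
        rw [this, map_inv, ofMul_inv, map_neg, hx', neg_zero] }
  have hK : K.Normal := by
    refine ⟨?_⟩
    rintro x ⟨hx, hx'⟩ k
    refine ⟨hCn.conj_mem x hx k, fun g => ?_⟩
    have : cj g ⟨k * x * k⁻¹, hCn.conj_mem x hx k⟩ = cj (k⁻¹ * g) ⟨x, hx⟩ := by
      apply Subtype.ext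
      show g⁻¹ * (k * x * k⁻¹) * g = (k⁻¹ * g)⁻¹ * x * (k⁻¹ * g)
      group
    rw [this]
    exact hx' _
  have hKne : K ≠ ⊥ := by
    intro h
    have h1 : (c : G) ∈ K := ⟨c.2, hall⟩
    rw [h, Subgroup.mem_bot] at h1
    exact hne (Subtype.ext h1)
  obtain ⟨haC', h0⟩ : (a : G) ∈ K := hM.2.2 K hK hKne a.2
  apply hl
  have h1 := h0 1
  have h2 : cj 1 ⟨a, haC'⟩ = ⟨a, haC⟩ := by
    apply Subtype.ext
    show (1 : G)⁻¹ * a * 1 = a
    simp
  rw [h2] at h1
  exact h1

/-- the centraliser of an abelian monolith is abelian -/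
theorem centralizer_abelian {G : Type*} [Group G] {M : Subgroup G} (hM : LeastNormal M)
    (hZ : ZP G) : AbSub (Subgroup.centralizer (M : Set G)) := by
  obtain ⟨C, hC⟩ : ∃ C : Subgroup G, C = Subgroup.centralizer (M : Set G) := ⟨_, rfl⟩
  rw [← hC]
  have hMn := hM.1
  have hCn : C.Normal := by rw [hC]; infer_instance
  have hcomm : ∀ x ∈ C, ∀ m ∈ M, m * x = x * m := by
    intro x hx m hm
    rw [hC, Subgroup.mem_centralizer_iff] at hx
    exact hx m hm
  have hD : ⁅C, C⁆ = ⊥ := by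
    by_contra hne
    have hle := hM.2.2 ⁅C, C⁆ inferInstance hne
    obtain ⟨a, ha⟩ := Subgroup.ne_bot_iff_exists_ne_one.mp hM.2.1
    apply ha
    apply Subtype.ext
    exact hZ C a (hle a.2) fun k hk => (hcomm k hk a a.2).symm
  intro x hx y hy
  have h1 : x * y * x⁻¹ * y⁻¹ ∈ ⁅C, C⁆ := Subgroup.commutator_mem_commutator hx hy
  rw [hD, Subgroup.mem_bot] at h1
  have h2 : x * y * x⁻¹ = y := mul_inv_eq_one.mp h1
  rw [mul_inv_eq_iff_eq_mul] at h2
  exact h2

theorem card_ab {G : Type} [Group G] [Finite G] {M : Subgroup G} (hM : LeastNormal M)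
    (hMab : AbSub M) {E : ℕ} (hE0 : 0 < E) (hE : ExpP E G) (hZ : ZP G) {h : ℕ}
    (hh : (Subgroup.centralizer (M : Set G)).index ≤ h) :
    (∀ x y : G, x * y = y * x) ∨ Nat.card G ≤ h * E ^ h := by
  classical
  have hab := centralizer_abelian hM hZ
  obtain ⟨C, hC⟩ : ∃ C : Subgroup G, C = Subgroup.centralizer (M : Set G) := ⟨_, rfl⟩
  rw [← hC] at hab hh
  have hMn := hM.1
  have hCn : C.Normal := by rw [hC]; infer_instance
  have hMC : M ≤ C := by
    intro m hm
    rw [hC, Subgroup.mem_centralizer_iff]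
    intro x hx
    exact hMab x hx m hm
  -- `c ^ E` is central
  have hcen : ∀ c ∈ C, c ^ E ∈ Subgroup.center G := by
    intro c hc
    rw [Subgroup.mem_center_iff]
    intro g
    have h1 := (hE C hCn hab g c hc).2
    have h2 : g * c⁻¹ * g⁻¹ ∈ C := hCn.conj_mem _ (C.inv_mem hc) g
    have h3 : Commute c (g * c⁻¹ * g⁻¹) := hab c hc _ h2
    have h4 : c * g * c⁻¹ * g⁻¹ = c * (g * c⁻¹ * g⁻¹) := by group
    rw [h4, h3.mul_pow, conj_pow, inv_pow] at h1
    have h5 : c ^ E = g * c ^ E * g⁻¹ := by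
      calc c ^ E = (g * (c ^ E)⁻¹ * g⁻¹)⁻¹ := eq_inv_of_mul_eq_one_left h1
        _ = g * c ^ E * g⁻¹ := by group
    calc g * c ^ E = (g * c ^ E * g⁻¹) * g := by group
      _ = c ^ E * g := by rw [← h5]
  by_cases hex : ∃ c ∈ C, c ^ E ≠ 1
  · left
    obtain ⟨c, hc, hne⟩ := hex
    have hle : M ≤ Subgroup.center G := by
      apply hM.2.2 _ inferInstance
      intro hb
      have := hcen c hc
      rw [hb, Subgroup.mem_bot] at this
      exact hne this
    have htop : ∀ x : G, x ∈ C := by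
      intro x
      rw [hC, Subgroup.mem_centralizer_iff]
      intro m hm
      exact ((Subgroup.mem_center_iff.mp (hle hm)) x).symm
    intro x y
    exact hab x (htop x) y (htop y)
  · right
    push Not at hex
    obtain ⟨χ, hχ⟩ := exists_char hM hMC hab (inferInstance : Finite (G ⧸ C))
    -- the torsion of the circle
    let U : Type := {u : AddCircle (1 : ℚ) // E • u = 0}
    have hF : Fact ((0 : ℚ) < 1) := ⟨by norm_num⟩
    have hsurj : ∃ f : Fin E → U, Surjective f := by
      refine ⟨fun m => ⟨(((m : ℕ) / (E : ℚ) * 1 : ℚ) : AddCircle (1 : ℚ)), ?_⟩, ?_⟩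
      · exact (AddCircle.nsmul_eq_zero_iff hE0).mpr ⟨m, m.2, rfl⟩
      · rintro ⟨u, hu⟩
        obtain ⟨m, hm, hmu⟩ := (AddCircle.nsmul_eq_zero_iff hE0).mp hu
        exact ⟨⟨m, hm⟩, Subtype.ext hmu⟩
    obtain ⟨f, hf⟩ := hsurj
    have hUfin : Finite U := Finite.of_surjective f hf
    have hUcard : Nat.card U ≤ E := by
      have := Nat.card_le_card_of_surjective f hf
      simpa using this
    have hCcard : Nat.card C ≤ E ^ h := by
      have hinj : ∃ ψ : C → ((G ⧸ C) → U), Injective ψ := by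
        refine ⟨fun c q => ⟨Multiplicative.toAdd (χ c) q, ?_⟩, ?_⟩
        · have h1 : χ c ^ E = 1 := by
            rw [← map_pow]
            have : c ^ E = 1 := Subtype.ext (hex c c.2)
            rw [this, map_one]
          exact congrFun (congrArg Multiplicative.toAdd h1) q
        · intro c c' hcc
          apply hχ
          apply Multiplicative.toAdd.injective
          funext q
          exact congrArg Subtype.val (congrFun hcc q)
      obtain ⟨ψ, hψ⟩ := hinj
      calc Nat.card C ≤ Nat.card ((G ⧸ C) → U) := Nat.card_le_card_of_injective ψ hψ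
        _ = Nat.card U ^ Nat.card (G ⧸ C) := by rw [Nat.card_fun]
        _ ≤ E ^ Nat.card (G ⧸ C) := Nat.pow_le_pow_left hUcard _
        _ ≤ E ^ h := Nat.pow_le_pow_right hE0 hh
    calc Nat.card G = Nat.card (G ⧸ C) * Nat.card C := Subgroup.card_eq_card_quotient_mul_card_subgroup C
      _ ≤ h * E ^ h := Nat.mul_le_mul hh hCcard

end Pool.Agent.helper80.RSV
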