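import Pool.Agent.helper80.RSV.Base

/-!
# Groups with bounded nonabelian finite simple sections
-/

namespace Pool.Agent.helper80.RSV

open Function

/-- every finite nonabelian simple section (homomorphic image of a subgroup) of `G` has order at
most `B` -/
def SimpleSec (B : ℕ) (G : Type) [Group G] : Prop :=
  ∀ (K : Subgroup G) (S : Type) [Group S] (φ : K →* S), Surjective φ → Finite S →
    IsSimpleGroup S → (∃ x y : S, x * y ≠ y * x) → Nat.card S ≤ B

theorem SimpleSec.subgroup {B : ℕ} {G : Type} [Group G] (h : SimpleSec B G) (H : Subgroup G) :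
    SimpleSec B H := by
  intro K S _ φ hφ hf hs hna
  let e : K ≃* K.map H.subtype := K.equivMapOfInjective H.subtype H.subtype_injective
  exact h (K.map H.subtype) S (φ.comp e.symm.toMonoidHom)
    (hφ.comp e.symm.surjective) hf hs hna

theorem SimpleSec.of_surjective {B : ℕ} {G H : Type} [Group G] [Group H] (h : SimpleSec B G)
    (ψ : G →* H) (hψ : Surjective ψ) : SimpleSec B H := by
  intro K S _ φ hφ hf hs hna
  let θ : K.comap ψ →* K := MonoidHom.mk' (fun x => ⟨ψ x, x.2⟩) (by
    intro a b
    apply Subtype.ext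
    show ψ ((a * b : K.comap ψ) : G) = ψ a * ψ b
    rw [Subgroup.coe_mul, map_mul])
  have hθ : Surjective θ := by
    rintro ⟨y, hy⟩
    obtain ⟨x, rfl⟩ := hψ y
    exact ⟨⟨x, hy⟩, rfl⟩
  exact h (K.comap ψ) S (φ.comp θ) (hφ.comp hθ) hf hs hna

theorem SimpleSec.quotient {B : ℕ} {G : Type} [Group G] (h : SimpleSec B G) (N : Subgroup G)
    [N.Normal] : SimpleSec B (G ⧸ N) :=
  h.of_surjective (QuotientGroup.mk' N) (QuotientGroup.mk'_surjective N)

theorem SimpleSec.mono {B B' : ℕ} {G : Type} [Group G] (h : SimpleSec B G) (hB : B ≤ B') :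
    SimpleSec B' G := fun K S _ φ hφ hf hs hna => (h K S φ hφ hf hs hna).trans hB

theorem SimpleSec.card_le {B : ℕ} {G : Type} [Group G] [Finite G] (h : SimpleSec B G)
    {T : Subgroup G} (hT : IsSimpleGroup T) (hna : ¬ AbSub T) : Nat.card T ≤ B := by
  refine h T T (MonoidHom.id T) surjective_id inferInstance hT ?_
  by_contra hcon
  push Not at hcon
  exact hna fun x hx y hy => congrArg Subtype.val (hcon ⟨x, hx⟩ ⟨y, hy⟩)

/-- the variety is generated by those of its finite groups which have nonabelian simple sections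
of order at most `B` -/
def GenFinB (W : Set (FreeGroup ℕ)) (B : ℕ) : Prop :=
  ∀ w : FreeGroup ℕ, (∀ (G : Type) [Group G], Finite G → SimpleSec B G → Sat W G → Law w G) →
    ∀ (G : Type) [Group G], Sat W G → Law w G

/-- the variety is generated by those of its virtually soluble groups whose nonabelian finite
simple sections have order at most `B` -/
def GenVSB (W : Set (FreeGroup ℕ)) (B : ℕ) : Prop :=
  ∀ w : FreeGroup ℕ, (∀ (G : Type) [Group G], VirtSol G → SimpleSec B G → Sat W G → Law w G) →
    ∀ (G : Type) [Group G], Sat W G → Law w G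

end Pool.Agent.helper80.RSV
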