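import Pool.Agent.helper80.RSV.D4
import Pool.Agent.helper80.RSV.Sec
import Pool.Agent.helper96.RsvD7
import Pool.Agent.helper80.RSV.D56
import Pool.Agent.helper80.RSV.D8

/-!
# Module D9: finite subdirectly irreducible groups in a residually small variety are bounded
-/

namespace Pool.Agent.helper80.RSV.D9

open Function

theorem normal_sSup {G : Type*} [Group G] {S : Set (Subgroup G)} (h : ∀ N ∈ S, N.Normal) :
    (sSup S).Normal := by
  refine ⟨fun x hx g => ?_⟩
  have h1 : sSup S ≤ (sSup S).comap (MulAut.conj g).toMonoidHom := by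
    apply sSup_le
    intro N hN y hy
    rw [Subgroup.mem_comap]
    exact (le_sSup hN : N ≤ sSup S) ((h N hN).conj_mem y hy g)
  exact h1 hx

theorem snab_normal (G : Type*) [Group G] : (Snab G).Normal :=
  normal_sSup fun _ hN => hN.1.1

theorem exists_noncomm {G : Type*} [Group G] {T : Subgroup G} (hs : IsSimpleGroup T)
    (hna : ¬ AbSub T) {c : G} (hc : c ∈ T) (hc1 : c ≠ 1) : ∃ s ∈ T, s * c ≠ c * s := by
  by_contra hcon
  push Not at hcon
  have h1 : (⟨c, hc⟩ : T) ∈ Subgroup.center T := by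
    rw [Subgroup.mem_center_iff]
    rintro ⟨g, hg⟩
    exact Subtype.ext (hcon g hg)
  rcases hs.eq_bot_or_eq_top_of_normal (Subgroup.center T) inferInstance with h | h
  · rw [h, Subgroup.mem_bot] at h1
    exact hc1 (congrArg Subtype.val h1)
  · apply hna
    intro x hx y hy
    have h2 : (⟨y, hy⟩ : T) ∈ Subgroup.center T := by rw [h]; trivial
    rw [Subgroup.mem_center_iff] at h2
    exact congrArg Subtype.val (h2 ⟨x, hx⟩)

theorem nat_injection {α : Type*} [Finite α] {m : ℕ} (h : m ≤ Nat.card α) :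
    ∃ f : Fin m → α, Injective f := by
  have := Fintype.ofFinite α
  rw [Nat.card_eq_fintype_card] at h
  have : Nonempty (Fin m ↪ α) := Embedding.nonempty_of_card_le (by simpa using h)
  exact ⟨this.some, this.some.injective⟩

theorem card_SIx {W : Set (FreeGroup ℕ)} (hZ : ∀ (G : Type) [Group G], Sat W G → ZP G)
    (hB : Bdd W) {E : ℕ} (hE0 : 0 < E) (hE : ∀ (G : Type) [Group G], Sat W G → ExpP E G) {B : ℕ}
    (hB1 : 1 ≤ B) :
    ∃ β : ℕ, ∀ (G : Type) [Group G], Finite G → SimpleSec B G → Sat W G → SubdirIrr G →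
      (∀ x y : G, x * y = y * x) ∨ Nat.card G ≤ β := by
  obtain ⟨m1, hm1⟩ := hB 1
  obtain ⟨m2, hm2⟩ := hB (2 * B)
  obtain ⟨m3, hm3⟩ := hB (2 * (2 * B * B))
  obtain ⟨h, hh⟩ : ∃ h, h = m1 * (m1 * B ^ m3).factorial := ⟨_, rfl⟩
  refine ⟨max ((B ^ m2).factorial) (h * E ^ h), fun G _ hfin hS hG hSI => ?_⟩
  obtain ⟨M, hM1, hM2, hM3⟩ := hSI
  have hM : LeastNormal M := ⟨hM1, hM2, hM3⟩
  by_cases hMab : AbSub M
  swap
  · right
    refine le_trans ?_ (le_max_left _ _)
    exact card_nonab_sec (fun T hT hTna => hS.card_le hT hTna)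
      (fun a ha c => hm2 G hG a ha c) hM hMab
  · have hmin : MinNormal M := ⟨hM1, hM2, fun K hK hKM hKb => le_antisymm hKM (hM3 K hK hKb)⟩
    obtain ⟨C, hC⟩ : ∃ C : Subgroup G, C = Subgroup.centralizer (M : Set G) := ⟨_, rfl⟩
    have hCn : C.Normal := by rw [hC]; infer_instance
    have hH : Sat W (G ⧸ C) := hG.quotient C
    -- abelian normal subgroups of `G ⧸ C`
    have hA : ∀ A : Subgroup (G ⧸ C), A.Normal → AbSub A → Nat.card A ≤ m1 := by
      intro A hAn hAab
      by_contra hcon
      push Not at hcon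
      obtain ⟨f, hf⟩ := nat_injection (α := A) (m := m1) hcon.le
      obtain ⟨a, haM, ha1, hac⟩ := ncl_abelian (A := A.comap (QuotientGroup.mk' C)) hmin hMab hC
        inferInstance (by
          intro x hx
          rw [Subgroup.mem_comap]
          have : (QuotientGroup.mk' C) x = 1 := (QuotientGroup.eq_one_iff x).mpr hx
          rw [this]; exact A.one_mem) (by
          intro x hx y hy
          have := hAab _ hx _ hy
          rw [← QuotientGroup.eq_one_iff]
          simp only [QuotientGroup.mk_mul, QuotientGroup.mk_inv]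
          simp only [QuotientGroup.mk'_apply] at this
          rw [this]
          group)
      choose g hg using fun i => QuotientGroup.mk_surjective (f i : G ⧸ C)
      obtain ⟨i, j, hij, hn⟩ := hm1 G hG a ha1 g
      apply hn
      apply hac
      · rw [Subgroup.mem_comap]
        simp only [QuotientGroup.mk'_apply, QuotientGroup.mk_mul, QuotientGroup.mk_inv, hg]
        exact A.mul_mem (A.inv_mem (f i).2) (f j).2
      · rw [← QuotientGroup.eq_one_iff]
        simp only [QuotientGroup.mk_mul, QuotientGroup.mk_inv, hg]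
        intro h1
        have h2 : (f i : G ⧸ C) = f j := inv_mul_eq_one.mp h1
        exact hij (hf (Subtype.ext h2))
    -- nonabelian minimal normal subgroups
    have hSn : Nat.card (Snab (G ⧸ C)) ≤ B ^ m3 := by
      obtain ⟨𝒯, h1, h2, h3⟩ := components (H := G ⧸ C)
      have hBT : ∀ T ∈ 𝒯, Nat.card T ≤ B := fun T hT =>
        (hS.quotient C).card_le (h1 T hT).1 (h1 T hT).2.1
      have hle := card_sSup_le h2 hBT
      rw [h3] at hle
      refine le_trans hle (Nat.pow_le_pow_right hB1 ?_)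
      have hSno := snab_normal (G ⧸ C)
      obtain ⟨a, haM, ha1, hac⟩ := ncl_comp (S := (Snab (G ⧸ C)).comap (QuotientGroup.mk' C)) hmin
        hMab hC inferInstance (by
          intro x hx
          rw [Subgroup.mem_comap]
          have : (QuotientGroup.mk' C) x = 1 := (QuotientGroup.eq_one_iff x).mpr hx
          rw [this]; exact Subgroup.one_mem _) B
      have hmap : ((Snab (G ⧸ C)).comap (QuotientGroup.mk' C)).map (QuotientGroup.mk' C) =
          Snab (G ⧸ C) :=
        Subgroup.map_comap_eq_self_of_surjective (QuotientGroup.mk'_surjective C) _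
      rw [hmap] at hac
      refine (few_simple (m := m3)
        (P := fun x => ∀ g : G, (g : G ⧸ C) = x → a ∈ Ncl (2 * (2 * B * B)) g) ?_ ?_).le
      · intro c
        choose g hg using fun i => QuotientGroup.mk_surjective (c i)
        obtain ⟨i, j, hij, hn⟩ := hm3 G hG a ha1 g
        refine ⟨i, j, hij, fun hP => hn (hP _ ?_)⟩
        simp only [QuotientGroup.mk_mul, QuotientGroup.mk_inv, hg]
      · intro T hT
        obtain ⟨hTs, hTna, hTle, hTn⟩ := h1 T hT
        obtain ⟨c, hc1⟩ := exists_ne (1 : T)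
        refine ⟨c, c.2, fun T' hT' hne x hx g hg => ?_⟩
        obtain ⟨s, hsT, hsc⟩ := exists_noncomm hTs hTna c.2 (fun h => hc1 (Subtype.ext h))
        obtain ⟨s', rfl⟩ := QuotientGroup.mk_surjective s
        have hk : g⁻¹ * (s' * g * s'⁻¹) ∈ Kc g := comm_mem_Kc g s'
        have hxs : x * (s' : G ⧸ C) = (s' : G ⧸ C) * x := h2 T' hT' T hT hne x hx _ hsT
        have him : ((g⁻¹ * (s' * g * s'⁻¹) : G) : G ⧸ C) =
            (c : G ⧸ C)⁻¹ * ((s' : G ⧸ C) * c * (s' : G ⧸ C)⁻¹) := by
          simp only [QuotientGroup.mk_mul, QuotientGroup.mk_inv, hg]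
          rw [← mul_assoc (s' : G ⧸ C) x c, ← hxs]
          group
        refine Ncl_of_Kc hk (hac T hTs hTna (hBT T hT) hTle hTn _ ?_ ?_)
        · rw [him]
          exact T.mul_mem (T.inv_mem c.2) (T.mul_mem (T.mul_mem hsT c.2) (T.inv_mem hsT))
        · rw [him]
          intro h1
          apply hsc
          have h2 : (s' : G ⧸ C) * c * (s' : G ⧸ C)⁻¹ = c := (inv_mul_eq_one.mp h1).symm
          rw [mul_inv_eq_iff_eq_mul] at h2
          exact h2
    have hcard := card_le_of_radicals (hZ _ hH) hA hSn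
    rw [← hh] at hcard
    rcases card_ab hM hMab hE0 (hE G hG) (hZ G hG) (h := h)
      (by rw [← hC, Subgroup.index]; exact hcard) with h1 | h1
    · exact Or.inl h1
    · exact Or.inr (h1.trans (le_max_right _ _))

end Pool.Agent.helper80.RSV.D9

namespace Pool.Agent.helper80.RSV

theorem card_SI {W : Set (FreeGroup ℕ)} (hZ : ∀ (G : Type) [Group G], Sat W G → ZP G)
    (hB : Bdd W) {E : ℕ} (hE0 : 0 < E) (hE : ∀ (G : Type) [Group G], Sat W G → ExpP E G) (B : ℕ) :
    ∃ β : ℕ, ∀ (G : Type) [Group G], Finite G → SimpleSec B G → Sat W G → SubdirIrr G →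
      (∀ x y : G, x * y = y * x) ∨ Nat.card G ≤ β := by
  obtain ⟨β, hβ⟩ := D9.card_SIx hZ hB hE0 hE (B := B + 1) (by omega)
  exact ⟨β, fun G _ hf hS hG hSI => hβ G hf (hS.mono (by omega)) hG hSI⟩

end Pool.Agent.helper80.RSV
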