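import Pool.Agent.helper88.RsvE3
import Pool.Agent.helper69.RSV.E2
import Pool.Agent.helper80.RSV.D8

/-!
# Module E4: subdirectly irreducible groups in the variety generated by `F × ℤ` are countable
-/

namespace Pool.Agent.helper80.RSV

open Function

theorem countable_of_inVar {F : Type} [Group F] [Finite F] (hF : AbSylow F) {G : Type} [Group G]
    (hG : InVar (F × Multiplicative ℤ) G) (hSI : SubdirIrr G) : Countable G := by
  obtain ⟨M, hM1, hM2, hM3⟩ := hSI
  have hM : LeastNormal M := ⟨hM1, hM2, hM3⟩
  obtain ⟨C, hC⟩ : ∃ C : Subgroup G, C = Subgroup.centralizer (M : Set G) := ⟨_, rfl⟩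
  have hCn : C.Normal := by rw [hC]; infer_instance
  by_cases hMab : AbSub M
  · have hab : AbSub C := by rw [hC]; exact centralizer_abelian hM (zp_of_inVar hF hG)
    have hMC : M ≤ C := by
      intro m hm
      rw [hC, Subgroup.mem_centralizer_iff]
      intro x hx
      exact hMab x hx m hm
    have hfin : C.FiniteIndex := by
      rcases finite_quot hG hM with h | h
      · have : C = ⊤ := by
          rw [eq_top_iff]
          intro g _
          rw [hC, Subgroup.mem_centralizer_iff]
          intro m hm
          exact (h m hm g).symm
        rw [this]; infer_instance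
      · rw [hC]; exact h
    have hfin' : Finite (G ⧸ C) := inferInstance
    obtain ⟨χ, hχ⟩ := exists_char hM hMC hab hfin'
    have h1 : Countable (AddCircle (1 : ℚ)) :=
      (QuotientAddGroup.mk_surjective (s := AddSubgroup.zmultiples (1 : ℚ))).countable
    have h2 : Countable ((G ⧸ C) → AddCircle (1 : ℚ)) := inferInstance
    have h3 : Countable (Multiplicative ((G ⧸ C) → AddCircle (1 : ℚ))) := h2
    have h4 : Countable C := hχ.countable
    have h5 : Countable ((G ⧸ C) × C) := inferInstance
    exact (Subgroup.groupEquivQuotientProdSubgroup (s := C)).injective.countable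
  · have hfin : C.FiniteIndex := by
      rcases finite_quot hG hM with h | h
      · exact absurd (fun x hx y hy => h y hy x) hMab
      · rw [hC]; exact h
    have hbot : C = ⊥ := by
      by_contra hne
      apply hMab
      intro x hx y hy
      have := hM3 C hCn hne hy
      rw [hC, Subgroup.mem_centralizer_iff] at this
      exact this x hx
    rw [hbot] at hfin
    have : Finite G := by
      have h1 : Finite (G ⧸ (⊥ : Subgroup G)) := inferInstance
      exact Finite.of_equiv _ (QuotientGroup.quotientBot (G := G)).toEquiv
    infer_instance

end Pool.Agent.helper80.RSV
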