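import Pool.Agent.helper80.RSV.A2
import Pool.Agent.helper80.RSV.D9
import Pool.Agent.helper80.RSV.E4
import Pool.Agent.helper80.RSV.F3
import Pool.Agent.helper69.RSV.A1
import Pool.Agent.helper69.RSV.B2
import Pool.Agent.helper69.RSV.F4

/-!
# Classification of residually small varieties generated by virtually soluble groups
-/

namespace Pool.Agent.helper80.RSV

open Function

/-- the variety is residually small if all its subdirectly irreducible members are countable -/
theorem rs_of_countable {W : Set (FreeGroup ℕ)}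
    (h : ∀ (G : Type) [Group G], Sat W G → SubdirIrr G → Countable G) : ResSmall W := by
  refine ⟨Order.succ Cardinal.aleph0, fun G _ hG hSI => ?_⟩
  rw [Order.lt_succ_iff]
  have := h G hG hSI
  exact Cardinal.mk_le_aleph0

theorem InVar.prod_int {F : Type} [Group F] {G : Type} [Group G] (h : InVar F G) :
    InVar (F × Multiplicative ℤ) G := fun w hw => h w hw.fst

theorem countable_of_class {W : Set (FreeGroup ℕ)} {F : Type} [Group F] [Finite F]
    (hF : AbSylow F) (h : (∀ (G : Type) [Group G], Sat W G ↔ InVar F G) ∨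
      (∀ (G : Type) [Group G], Sat W G ↔ InVar (F × Multiplicative ℤ) G)) (G : Type) [Group G]
    (hG : Sat W G) (hSI : SubdirIrr G) : Countable G := by
  rcases h with h | h
  · exact countable_of_inVar hF ((h G).mp hG).prod_int hSI
  · exact countable_of_inVar hF ((h G).mp hG) hSI

/-- the laws of all finite groups of the variety -/
def W0 (W : Set (FreeGroup ℕ)) : Set (FreeGroup ℕ) :=
  {w | ∀ (G : Type) [Group G], Finite G → Sat W G → Law w G}

theorem sub_W0 (W : Set (FreeGroup ℕ)) : W ⊆ W0 W := fun w hw _ _ _ hG => hG w hw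

theorem sat_W0 {W : Set (FreeGroup ℕ)} {G : Type} [Group G] (hf : Finite G) (hG : Sat W G) :
    Sat (W0 W) G := fun _ hw => hw G hf hG

theorem ResSmall.mono {W W' : Set (FreeGroup ℕ)} (h : ResSmall W) (hW : W ⊆ W') : ResSmall W' := by
  obtain ⟨κ, hκ⟩ := h
  exact ⟨κ, fun G _ hG => hκ G (hG.mono hW)⟩

/-- classification for a residually small variety generated by finite groups with bounded
nonabelian simple sections -/
theorem classify_of_rs {W : Set (FreeGroup ℕ)} (hR : ResSmall W) {B : ℕ} (hV : GenFinB W B) :
    ∃ (F : Type) (_ : Group F), Finite F ∧ AbSylow F ∧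
      ((∀ (G : Type) [Group G], Sat W G ↔ InVar F G) ∨
        (∀ (G : Type) [Group G], Sat W G ↔ InVar (F × Multiplicative ℤ) G)) := by
  have hZ : ∀ (G : Type) [Group G], Sat W G → ZP G := fun G _ hG => zp_of_rs hR hG
  obtain ⟨E, hE0, hE⟩ := exists_expP hZ
  obtain ⟨β, hβ⟩ := card_SI hZ (bdd_of_rs hR) hE0 hE B
  exact classify_genFinB hV hZ hβ

theorem final (W : Set (FreeGroup ℕ))
    (hV : (∃ B : ℕ, GenVSB W B) ∨
      ((∃ e : ℕ, 0 < e ∧ ∀ (G : Type) [Group G], Sat W G → ∀ g : G, g ^ e = 1) ∧
        ∃ B : ℕ, ∀ (G : Type) [Group G], Group.FG G → Sat W G → IsSimpleGroup G →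
          Finite G ∧ Nat.card G ≤ B)) :
    (ResSmall W ↔ ∃ (F : Type) (_ : Group F), Finite F ∧ AbSylow F ∧
      ((∀ (G : Type) [Group G], Sat W G ↔ InVar F G) ∨
        (∀ (G : Type) [Group G], Sat W G ↔ InVar (F × Multiplicative ℤ) G))) ∧
    (ResSmall W → ∀ (G : Type) [Group G], Sat W G → SubdirIrr G → Countable G) := by
  have hmain : ResSmall W → ∃ (F : Type) (_ : Group F), Finite F ∧ AbSylow F ∧
      ((∀ (G : Type) [Group G], Sat W G ↔ InVar F G) ∨
        (∀ (G : Type) [Group G], Sat W G ↔ InVar (F × Multiplicative ℤ) G)) := by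
    intro hR
    have hZ : ∀ (G : Type) [Group G], Sat W G → ZP G := fun G _ hG => zp_of_rs hR hG
    obtain ⟨E, hE0, hE⟩ := exists_expP hZ
    rcases hV with ⟨B, hV⟩ | ⟨⟨e, he0, he⟩, B, hs⟩
    · exact classify_of_rs hR (genFinB_of_genVSB hZ hE0 hE hV)
    · -- finite groups in the variety have bounded simple sections
      have hsec : ∀ (G : Type) [Group G], Finite G → Sat W G → SimpleSec B G := by
        intro G _ hf hG K S _ φ hφ hfS hsS _
        have hfg : Group.FG S := inferInstance
        exact (hs S hfg ((hG.subgroup K).of_surjective φ hφ) hsS).2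
      -- first classify the variety generated by the finite groups
      have hR0 : ResSmall (W0 W) := hR.mono (sub_W0 W)
      have hG0 : GenFinB (W0 W) B := by
        intro w hw G _ hG
        have : w ∈ W0 W := fun H _ hf hH => hw H hf (hsec H hf hH) (sat_W0 hf hH)
        exact hG w this
      obtain ⟨F, _, hFf, hFA, hF⟩ := classify_of_rs hR0 hG0
      have hlaw : ∀ w, Law w F → w ∈ W0 W := by
        rcases hF with hF | hF
        · intro w hw G _ hf hG
          exact (hF G).mp (sat_W0 hf hG) w hw
        · exfalso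
          -- `ℤ` satisfies `W0`
          have h1 : Sat (W0 W) (Multiplicative ℤ) := by
            rw [hF]
            intro w hw
            exact hw.snd
          have h2 := he (Multiplicative ℤ) (h1.mono (sub_W0 W)) (Multiplicative.ofAdd 1)
          rw [← ofAdd_nsmul] at h2
          have h3 : (e • (1 : ℤ)) = 0 := Multiplicative.ofAdd.injective h2
          simp at h3
          omega
      have hgen : GenFin W := by
        refine genFin_of_exp (F := F) ?_ (fun G _ hfg hG hsG => (hs G hfg hG hsG).1)
        intro G _ hf hG w hw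
        exact hlaw w hw G hf hG
      refine classify_of_rs (B := B) hR ?_
      intro w hw
      exact hgen w fun G _ hf hG => hw G hf (hsec G hf hG) hG
  refine ⟨⟨hmain, ?_⟩, ?_⟩
  · rintro ⟨F, _, hFf, hFA, hF⟩
    exact rs_of_countable fun G _ hG hSI => countable_of_class hFA hF G hG hSI
  · intro hR
    obtain ⟨F, _, hFf, hFA, hF⟩ := hmain hR
    exact fun G _ hG hSI => countable_of_class hFA hF G hG hSI

end Pool.Agent.helper80.RSV
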