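import Pool.Agent.helper80.RSV.Base

/-!
# Module A2: residually small varieties, bounded form
-/

namespace Pool.Agent.helper80.RSV

open Function

namespace A2

theorem kc_pi {ι : Type*} {G : ι → Type*} [∀ i, Group (G i)] {d b : ∀ i, G i}
    (h : ∀ i, b i ∈ Kc (d i)) : b ∈ Kc d := by
  choose g k hk using h
  exact ⟨g, k, funext hk⟩

theorem ncl_pi {ι : Type*} {G : ι → Type*} [∀ i, Group (G i)] {d : ∀ i, G i} (n : ℕ)
    {b : ∀ i, G i} (h : ∀ i, b i ∈ Ncl n (d i)) : b ∈ Ncl n d := by
  induction n generalizing b with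
  | zero => exact funext h
  | succ n ih =>
    choose y hy z hz hb using h
    exact ⟨y, kc_pi hy, z, ih hz, funext hb⟩

end A2

theorem bdd_of_rs {W : Set (FreeGroup ℕ)} (hR : ResSmall W) : Bdd W := by
  classical
  obtain ⟨κ, hκ⟩ := hR
  by_contra hcon
  unfold Bdd at hcon
  push Not at hcon
  obtain ⟨n, hn⟩ := hcon
  choose G inst hsat a ha c hc using hn
  let T : Type := κ.out
  let P : Type := ∀ s : Finset T, G s.card
  have hP : Sat W P := Sat.pi fun s => hsat s.card
  let aP : P := fun s => a s.card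
  let cP : T → P := fun t s => if h : t ∈ s then c s.card (s.equivFin ⟨t, h⟩) else 1
  let N0 : Subgroup P :=
    { carrier := {f | ∃ t : Finset T, ∀ s, t ⊆ s → f s = 1}
      one_mem' := ⟨∅, fun _ _ => rfl⟩
      mul_mem' := by
        rintro f g ⟨t, ht⟩ ⟨t', ht'⟩
        refine ⟨t ∪ t', fun s hs => ?_⟩
        rw [Pi.mul_apply, ht s (Finset.union_subset_left hs), ht' s (Finset.union_subset_right hs),
          one_mul]
      inv_mem' := by
        rintro f ⟨t, ht⟩
        exact ⟨t, fun s hs => by rw [Pi.inv_apply, ht s hs, inv_one]⟩ }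
  have hN0 : N0.Normal := by
    refine ⟨fun f hf g => ?_⟩
    obtain ⟨t, ht⟩ := hf
    exact ⟨t, fun s hs => by rw [Pi.mul_apply, Pi.mul_apply, ht s hs, mul_one, Pi.inv_apply,
      mul_inv_cancel]⟩
  have haN : aP ∉ N0 := by
    rintro ⟨t, ht⟩
    exact ha _ (ht t (Finset.Subset.refl t))
  obtain ⟨N, hNn, hN0N, haN', hmax⟩ := exists_max_avoid hN0 haN
  have hinj : Injective fun t : T => ((cP t : P) : P ⧸ N) := by
    intro i j hij
    by_contra hne
    apply haN'
    have hd : (cP i)⁻¹ * cP j ∈ N := QuotientGroup.eq.mp hij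
    -- an element of `Ncl`
    let b : P := fun s => if i ∈ s ∧ j ∈ s then a s.card else 1
    have hb : b ∈ Ncl n ((cP i)⁻¹ * cP j) := by
      apply A2.ncl_pi n
      intro s
      by_cases hs : i ∈ s ∧ j ∈ s
      · have e1 : b s = a s.card := if_pos hs
        have e2 : ((cP i)⁻¹ * cP j) s = (c s.card (s.equivFin ⟨i, hs.1⟩))⁻¹ *
            c s.card (s.equivFin ⟨j, hs.2⟩) := by
          have e3 : cP i s = c s.card (s.equivFin ⟨i, hs.1⟩) := dif_pos hs.1
          have e4 : cP j s = c s.card (s.equivFin ⟨j, hs.2⟩) := dif_pos hs.2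
          rw [← e3, ← e4]
          rfl
        rw [e1, e2]
        apply hc
        intro h
        apply hne
        have := s.equivFin.injective h
        exact congrArg Subtype.val this
      · have e1 : b s = 1 := if_neg hs
        rw [e1]
        exact one_mem_Ncl n _
    have hbN : b ∈ N := Ncl_sub_normal hNn hd hb
    have h1 : b⁻¹ * aP ∈ N0 := by
      refine ⟨{i, j}, fun s hs => ?_⟩
      have hi : i ∈ s := hs (by simp)
      have hj : j ∈ s := hs (by simp)
      have e1 : b s = a s.card := if_pos ⟨hi, hj⟩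
      have e2 : (b⁻¹ * aP) s = (b s)⁻¹ * a s.card := rfl
      rw [e2, e1]
      exact inv_mul_cancel _
    have h2 : aP = b * (b⁻¹ * aP) := (mul_inv_cancel_left b aP).symm
    rw [h2]
    exact N.mul_mem hbN (hN0N h1)
  have hlt := hκ (P ⧸ N) (hP.quotient N) (subdirIrr_quotient haN' hmax)
  have hle : Cardinal.mk T ≤ Cardinal.mk (P ⧸ N) := Cardinal.mk_le_of_injective hinj
  rw [Cardinal.mk_out] at hle
  exact absurd (lt_of_le_of_lt hle hlt) (lt_irrefl _)

end Pool.Agent.helper80.RSV
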