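import Pool.Agent.helper80.RSV.Base

/-!
# Modules D2, D3: counting, and generation in simple groups
-/

namespace Pool.Agent.helper80.RSV

open Function

namespace D23

theorem card_sup_le {H : Type} [Group H] [Finite H] {A B : Subgroup H}
    (h : ∀ x ∈ A, ∀ y ∈ B, x * y = y * x) :
    Nat.card (A ⊔ B : Subgroup H) ≤ Nat.card A * Nat.card B := by
  let φ : A × B →* H := MonoidHom.mk' (fun p => (p.1 : H) * p.2) (by
    rintro ⟨a, b⟩ ⟨a', b'⟩
    show ((a * a' : A) : H) * ((b * b' : B) : H) = (a : H) * b * ((a' : H) * b')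
    have := h a' a'.2 b b.2
    simp only [Subgroup.coe_mul]
    calc (a : H) * a' * (b * b') = a * (a' * b) * b' := by group
      _ = a * (b * a') * b' := by rw [this]
      _ = (a : H) * b * ((a' : H) * b') := by group)
  have h1 : (A ⊔ B : Subgroup H) ≤ φ.range := by
    refine sup_le ?_ ?_
    · intro x hx
      exact ⟨(⟨x, hx⟩, 1), by simp [φ]⟩
    · intro x hx
      exact ⟨(1, ⟨x, hx⟩), by simp [φ]⟩
  calc Nat.card (A ⊔ B : Subgroup H) ≤ Nat.card φ.range :=
        Nat.card_mono (Set.toFinite _) h1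
    _ ≤ Nat.card (A × B) :=
        Nat.card_le_card_of_surjective φ.rangeRestrict φ.rangeRestrict_surjective
    _ = Nat.card A * Nat.card B := Nat.card_prod _ _

theorem comm_sSup {H : Type*} [Group H] {S : Set (Subgroup H)} {A : Subgroup H}
    (h : ∀ T ∈ S, ∀ x ∈ A, ∀ y ∈ T, x * y = y * x) : ∀ x ∈ A, ∀ y ∈ sSup S, x * y = y * x := by
  intro x hx y hy
  have h1 : sSup S ≤ Subgroup.centralizer ({x} : Set H) := by
    apply sSup_le
    intro T hT z hz
    rw [Subgroup.mem_centralizer_singleton_iff]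
    exact (h T hT x hx z hz).symm
  have := h1 hy
  rw [Subgroup.mem_centralizer_singleton_iff] at this
  exact this.symm

theorem card_sSup_finset {H : Type} [Group H] [Finite H] {B : ℕ} (s : Finset (Subgroup H))
    (hc : ∀ T ∈ s, ∀ T' ∈ s, T ≠ T' → ∀ x ∈ T, ∀ y ∈ T', x * y = y * x)
    (hB : ∀ T ∈ s, Nat.card T ≤ B) : Nat.card (sSup (s : Set (Subgroup H)) : Subgroup H) ≤ B ^ s.card := by
  classical
  induction s using Finset.induction_on with
  | empty => simp
  | insert T s hT ih =>
    rw [Finset.coe_insert, sSup_insert, Finset.card_insert_of_notMem hT, pow_succ']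
    have h1 := ih (fun T hT T' hT' => hc T (Finset.mem_insert_of_mem hT) T'
      (Finset.mem_insert_of_mem hT')) (fun T hT => hB T (Finset.mem_insert_of_mem hT))
    have h2 : ∀ x ∈ T, ∀ y ∈ sSup (s : Set (Subgroup H)), x * y = y * x := by
      apply comm_sSup
      intro T' hT' x hx y hy
      refine hc T (Finset.mem_insert_self _ _) T' (Finset.mem_insert_of_mem hT') ?_ x hx y hy
      rintro rfl
      exact hT hT'
    exact (card_sup_le h2).trans (Nat.mul_le_mul (hB T (Finset.mem_insert_self _ _)) h1)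

end D23

theorem card_sSup_le {H : Type} [Group H] [Finite H] {𝒯 : Set (Subgroup H)} {B : ℕ}
    (hc : ∀ T ∈ 𝒯, ∀ T' ∈ 𝒯, T ≠ T' → ∀ x ∈ T, ∀ y ∈ T', x * y = y * x)
    (hB : ∀ T ∈ 𝒯, Nat.card T ≤ B) : Nat.card (sSup 𝒯 : Subgroup H) ≤ B ^ (Nat.card 𝒯) := by
  classical
  have hfin : 𝒯.Finite := Set.toFinite _
  have h := D23.card_sSup_finset hfin.toFinset (B := B)
    (fun T hT T' hT' => hc T (hfin.mem_toFinset.mp hT) T' (hfin.mem_toFinset.mp hT'))
    (fun T hT => hB T (hfin.mem_toFinset.mp hT))
  rw [hfin.coe_toFinset] at h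
  have h2 : Nat.card 𝒯 = hfin.toFinset.card := Nat.card_eq_card_finite_toFinset hfin
  rw [h2]
  exact h

theorem ncl_simple {T : Type} [Group T] [Finite T] [IsSimpleGroup T]
    (hna : ∃ x y : T, x * y ≠ y * x) {B : ℕ} (hB : Nat.card T ≤ B) {c : T} (hc : c ≠ 1) (t : T) :
    t ∈ Ncl B c := by
  classical
  -- the centre is trivial
  have hcen : Subgroup.center T = ⊥ := by
    rcases IsSimpleGroup.eq_bot_or_eq_top_of_normal (Subgroup.center T) inferInstance with h | h
    · exact h
    · exfalso
      obtain ⟨x, y, hxy⟩ := hna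
      apply hxy
      have : y ∈ Subgroup.center T := by rw [h]; trivial
      rw [Subgroup.mem_center_iff] at this
      exact this x
  have hnc : ∃ g : T, g * c ≠ c * g := by
    by_contra hcon
    push Not at hcon
    have : c ∈ Subgroup.center T := Subgroup.mem_center_iff.mpr hcon
    rw [hcen, Subgroup.mem_bot] at this
    exact hc this
  -- if the sequence stabilises, it is everything
  have hstab : ∀ n, (Ncl n c : Set T) = Ncl (n + 1) c → ∀ t : T, t ∈ Ncl n c := by
    intro n hn
    have hmul : ∀ y ∈ Kc c, ∀ x ∈ Ncl n c, y * x ∈ Ncl n c := by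
      intro y hy x hx
      rw [hn]
      exact ⟨y, hy, x, hx, rfl⟩
    have hmul2 : ∀ k, ∀ y ∈ Ncl k c, ∀ x ∈ Ncl n c, y * x ∈ Ncl n c := by
      intro k
      induction k with
      | zero =>
        intro y hy x hx
        have : y = 1 := hy
        subst this
        simpa using hx
      | succ k ih =>
        rintro y ⟨a, ha, b, hb, rfl⟩ x hx
        rw [mul_assoc]
        exact hmul a ha _ (ih b hb x hx)
    let N : Subgroup T :=
      { carrier := Ncl n c
        one_mem' := one_mem_Ncl n c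
        mul_mem' := fun {a b} ha hb => hmul2 n a ha b hb
        inv_mem' := fun {a} ha => Ncl_inv ha }
    have hN : N.Normal := ⟨fun x hx g => Ncl_conj hx g⟩
    rcases IsSimpleGroup.eq_bot_or_eq_top_of_normal N hN with h | h
    · exfalso
      obtain ⟨g, hg⟩ := hnc
      have h1 : g * c * g⁻¹ * c⁻¹ * 1 ∈ Ncl n c := hmul _ (comm_mem_Kc'' c g) 1 (one_mem_Ncl n c)
      have h2 : g * c * g⁻¹ * c⁻¹ * 1 ∈ N := h1
      rw [h, Subgroup.mem_bot, mul_one] at h2
      apply hg
      have h3 : g * c * g⁻¹ = c := mul_inv_eq_one.mp h2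
      rw [mul_inv_eq_iff_eq_mul] at h3
      exact h3
    · intro t
      have : t ∈ N := by rw [h]; trivial
      exact this
  -- sizes
  have hsize : ∀ n, (∀ t : T, t ∈ Ncl n c) ∨ n + 1 ≤ Nat.card (Ncl n c : Set T) := by
    intro n
    induction n with
    | zero =>
      right
      have : (Ncl 0 c : Set T) = {1} := rfl
      rw [this]
      simp
    | succ n ih =>
      rcases ih with h | h
      · left
        intro t
        exact Ncl_mono (Nat.le_succ n) (h t)
      · by_cases he : (Ncl n c : Set T) = Ncl (n + 1) c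
        · left
          intro t
          exact Ncl_mono (Nat.le_succ n) (hstab n he t)
        · right
          have hss : (Ncl n c : Set T) ⊂ Ncl (n + 1) c :=
            lt_of_le_of_ne (fun x hx => Ncl_mono (Nat.le_succ n) hx) he
          have := Set.ncard_lt_ncard hss (Set.toFinite _)
          simp only [← Nat.card_coe_set_eq] at this
          omega
  rcases hsize B with h | h
  · exact h t
  · exfalso
    have : Nat.card (Ncl B c : Set T) ≤ Nat.card T := by
      rw [Nat.card_coe_set_eq]
      exact Set.ncard_le_card _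
    omega

/-- bounded number of commuting simple subgroups -/
theorem few_simple {H : Type} [Group H] [Finite H] {𝒯 : Set (Subgroup H)} {m : ℕ} {P : H → Prop}
    (hP : ∀ c : Fin m → H, ∃ i j, i ≠ j ∧ ¬ P ((c i)⁻¹ * c j))
    (hT : ∀ T ∈ 𝒯, ∃ c ∈ T, ∀ T' ∈ 𝒯, T' ≠ T → ∀ x ∈ T', P (x * c)) : Nat.card 𝒯 < m := by
  classical
  by_contra hcon
  push Not at hcon
  have hfin : Finite 𝒯 := Set.toFinite 𝒯
  have := Fintype.ofFinite 𝒯
  rw [Nat.card_eq_fintype_card] at hcon
  have hne : Nonempty (Fin m ↪ 𝒯) := Embedding.nonempty_of_card_le (by simpa using hcon)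
  obtain ⟨f⟩ := hne
  choose c hc hc2 using hT
  obtain ⟨i, j, hij, hn⟩ := hP fun i => c (f i) (f i).2
  apply hn
  apply hc2 (f j) (f j).2 (f i) (f i).2
  · intro h
    exact hij (f.injective (Subtype.ext h))
  · exact (f i : Subgroup H).inv_mem (hc _ _)

end Pool.Agent.helper80.RSV
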