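import Pool.Agent.helper98.RsvD4

/-!
# RSV-D4 (after helper98), with the bound assumed for nonabelian simple subgroups only
-/

namespace Pool.Agent.helper80.RSV

open Function

theorem card_nonab_sec {G : Type} [Group G] [Finite G] {B m : ℕ}
    (hB : ∀ T : Subgroup G, IsSimpleGroup T → ¬ AbSub T → Nat.card T ≤ B)
    (hm : ∀ a : G, a ≠ 1 → ∀ c : Fin m → G, ∃ i j, i ≠ j ∧ a ∉ Ncl (2 * B) ((c i)⁻¹ * c j))
    {M : Subgroup G} (hM : LeastNormal M) (hna : ¬ AbSub M) :
    Nat.card G ≤ (B ^ m).factorial := by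
  classical
  obtain ⟨T, hTM, hTs, hTna, hTnorm, hTsup, hTdich⟩ := components_min hM.minNormal hna
  have hTB : Nat.card T ≤ B := hB T hTs hTna
  have hB1 : 1 ≤ B := (Nat.card_pos (α := T)).trans_le hTB
  set 𝒯 : Set (Subgroup G) := Set.range fun h : G => T.map (MulAut.conj h).toMonoidHom with h𝒯
  -- noncommuting pair in T
  have hTna' : ∃ x y : T, x * y ≠ y * x := by
    by_contra hcon
    push Not at hcon
    apply hTna
    intro x hx y hy
    have := hcon ⟨x, hx⟩ ⟨y, hy⟩
    exact congrArg Subtype.val this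
  have := hTs.toNontrivial
  obtain ⟨a, ha⟩ := exists_ne (1 : T)
  have ha1 : (a : G) ≠ 1 := fun h => ha (Subtype.ext h)
  -- (i)
  have hi : ∀ h : G, ∀ c ∈ T.map (MulAut.conj h).toMonoidHom, c ≠ 1 → (a : G) ∈ Ncl B c := by
    intro h c hc hc1
    rw [mem_cj] at hc
    have hc' : (⟨h⁻¹ * c * h, hc⟩ : T) ≠ 1 := by
      intro he
      have he' : h⁻¹ * c * h = 1 := congrArg Subtype.val he
      apply hc1
      have e : c = h * (h⁻¹ * c * h) * h⁻¹ := by group
      rw [e, he']; group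
    have h1 := ncl_simple hTna' hTB hc' a
    have h2 := Ncl_map T.subtype h1
    have h3 : (T.subtype ⟨h⁻¹ * c * h, hc⟩ : G) = h⁻¹ * c * h⁻¹⁻¹ := by
      simp
    rw [h3, Ncl_of_conj] at h2
    exact h2
  -- commuting
  have hcomm : ∀ T₁ ∈ 𝒯, ∀ T₂ ∈ 𝒯, T₁ ≠ T₂ → ∀ x ∈ T₁, ∀ y ∈ T₂, x * y = y * x := by
    rintro _ ⟨h, rfl⟩ _ ⟨h', rfl⟩ hne x hx y hy
    rw [mem_cj] at hx hy
    have hy' : h⁻¹ * y * h ∈ T.map (MulAut.conj (h⁻¹ * h')).toMonoidHom := by
      rw [mem_cj]
      have e : (h⁻¹ * h')⁻¹ * (h⁻¹ * y * h) * (h⁻¹ * h') = h'⁻¹ * y * h' := by group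
      rw [e]; exact hy
    rcases hTdich (h⁻¹ * h') with he | hc
    · exfalso
      apply hne
      show T.map (MulAut.conj h).toMonoidHom = T.map (MulAut.conj h').toMonoidHom
      conv_lhs => rw [← he]
      rw [cj_cj]
      congr 3
      group
    · have := hc _ hx _ hy'
      have e1 : x * y = h * ((h⁻¹ * x * h) * (h⁻¹ * y * h)) * h⁻¹ := by group
      have e2 : y * x = h * ((h⁻¹ * y * h) * (h⁻¹ * x * h)) * h⁻¹ := by group
      rw [e1, e2, this]
  -- (ii)
  have hfew : Nat.card 𝒯 < m := by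
    apply few_simple (P := fun d => (a : G) ∈ Ncl (2 * B) d) (fun c => hm a ha1 c)
    rintro _ ⟨h, rfl⟩
    -- take the conjugate of a
    obtain ⟨s₀, hs₀⟩ := exists_not_commute hTna' ha
    refine ⟨h * a * h⁻¹, ?_, ?_⟩
    · show h * a * h⁻¹ ∈ T.map (MulAut.conj h).toMonoidHom
      rw [mem_cj]
      have e : h⁻¹ * (h * a * h⁻¹) * h = (a : G) := by group
      rw [e]; exact a.2
    · intro T' hT' hne x hx
      set c : G := h * a * h⁻¹ with hcdef
      set s : G := h * s₀ * h⁻¹ with hsdef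
      have hsT : s ∈ T.map (MulAut.conj h).toMonoidHom := by
        rw [mem_cj]
        have e : h⁻¹ * (h * s₀ * h⁻¹) * h = (s₀ : G) := by group
        rw [hsdef, e]; exact s₀.2
      have hxs : x * s = s * x := hcomm T' hT' _ ⟨h, rfl⟩ hne x hx s hsT
      set k : G := (x * c)⁻¹ * (s * (x * c) * s⁻¹) with hk
      have hkK : k ∈ Kc (x * c) := comm_mem_Kc (x * c) s
      have hk2 : k = c⁻¹ * s * c * s⁻¹ := by
        rw [hk]
        have e : (x * c)⁻¹ * (s * (x * c) * s⁻¹) = c⁻¹ * (x⁻¹ * (s * x)) * c * s⁻¹ := by group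
        rw [e, ← hxs]; group
      have hkT : k ∈ T.map (MulAut.conj h).toMonoidHom := by
        rw [hk2]
        have hcT : c ∈ T.map (MulAut.conj h).toMonoidHom := by
          rw [mem_cj]
          have e : h⁻¹ * (h * a * h⁻¹) * h = (a : G) := by group
          rw [hcdef, e]; exact a.2
        exact Subgroup.mul_mem _ (Subgroup.mul_mem _ (Subgroup.mul_mem _ (Subgroup.inv_mem _ hcT)
          hsT) hcT) (Subgroup.inv_mem _ hsT)
      have hk1 : k ≠ 1 := by
        intro hk1
        apply hs₀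
        apply Subtype.ext
        show (s₀ : G) * a = a * s₀
        rw [hk2] at hk1
        have e : c⁻¹ * s * c * s⁻¹ = h * ((a : G)⁻¹ * s₀ * a * (s₀ : G)⁻¹) * h⁻¹ := by
          rw [hcdef, hsdef]; group
        rw [e] at hk1
        have e2 : (a : G)⁻¹ * s₀ * a * (s₀ : G)⁻¹ = 1 := by
          have e3 : (a : G)⁻¹ * s₀ * a * (s₀ : G)⁻¹ =
            h⁻¹ * (h * ((a : G)⁻¹ * s₀ * a * (s₀ : G)⁻¹) * h⁻¹) * h := by group
          rw [e3, hk1]; group
        have e4 : (s₀ : G) * a = a * ((a : G)⁻¹ * s₀ * a * (s₀ : G)⁻¹) * s₀ := by group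
        rw [e4, e2]; group
      exact Ncl_of_Kc hkK (hi h k hkT hk1)
  -- order of M
  have hMcard : Nat.card M ≤ B ^ m := by
    have h1 : M ≤ sSup 𝒯 := by
      intro x hx
      have := hTsup x hx
      rw [h𝒯]
      exact this
    have h2 : Nat.card M ≤ Nat.card (sSup 𝒯 : Subgroup G) := Subgroup.card_le_of_le h1
    have h3 : Nat.card (sSup 𝒯 : Subgroup G) ≤ B ^ Nat.card 𝒯 := by
      apply card_sSup_le hcomm
      rintro _ ⟨h, rfl⟩
      have : Nat.card (T.map (MulAut.conj h).toMonoidHom) = Nat.card T :=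
        (Nat.card_congr (T.equivMapOfInjective _ (MulAut.conj h).injective).toEquiv).symm
      show Nat.card (T.map (MulAut.conj h).toMonoidHom) ≤ B
      rw [this]; exact hTB
    exact h2.trans (h3.trans (Nat.pow_le_pow_right hB1 hfew.le))
  -- embedding in the symmetric group
  have hMn := hM.1
  have hinj : Injective (fun g : G => ((MulAut.conjNormal g : MulAut M).toEquiv : Equiv.Perm M)) := by
    intro g g' hgg
    have hgg' : ∀ x : M, (MulAut.conjNormal g : MulAut M) x = (MulAut.conjNormal g' : MulAut M) x :=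
      fun x => DFunLike.congr_fun hgg x
    have h1 : g'⁻¹ * g ∈ Subgroup.centralizer (M : Set G) := by
      rw [Subgroup.mem_centralizer_iff]
      intro x hx
      have := congrArg Subtype.val (hgg' ⟨x, hx⟩)
      rw [MulAut.conjNormal_apply, MulAut.conjNormal_apply] at this
      have h2 : g * x * g⁻¹ = g' * x * g'⁻¹ := this
      have e1 : g'⁻¹ * g * x = g'⁻¹ * (g * x * g⁻¹) * g := by group
      rw [e1, h2]; group
    rw [centralizer_eq_bot hM hna, Subgroup.mem_bot] at h1
    have : g = g' * (g'⁻¹ * g) := by group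
    rw [this, h1, mul_one]
  calc Nat.card G ≤ Nat.card (Equiv.Perm M) := Nat.card_le_card_of_injective _ hinj
    _ = (Nat.card M).factorial := Nat.card_perm
    _ ≤ (B ^ m).factorial := Nat.factorial_le hMcard


end Pool.Agent.helper80.RSV
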